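import Pool.Agent.Y522.NA.Main
import Pool.Agent.Y306.NA.Glob
import Pool.Agent.Y655.NA.Loc
import Pool.Agent.Y98.NA.Term
import Pool.Agent.Y475.NA.Grow
import Pool.Agent.Y391.NA.Tub

/-!
# Nearly affine maps between closed manifolds
-/

set_option autoImplicit false

open Set Filter Topology Metric Function MeasureTheory
open scoped Manifold ContDiff

noncomputable section

namespace Pool.Agent.Y522.NA

open Pool.Agent.Y522

theorem stLoc : StLoc := Pool.Agent.Y655.NA.loc Pool.Agent.Y475.NA.grow Pool.Agent.Y98.NA.term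

theorem stNA : StNA := Pool.Agent.Y306.NAG.glob stLoc

theorem main (n : ℕ) (κ : ℝ) : ∃ ε : ℝ, 0 < ε ∧
    ∀ (X Y : Type) [MetricSpace X] [CompactSpace X]
      [ChartedSpace (E n) X] [IsManifold (𝓡 n) ∞ X] [TopologicalSpace Y] [T2Space Y]
      [CompactSpace Y] [ChartedSpace (E n) Y] [IsManifold (𝓡 n) ∞ Y] (f : C(X, Y)),
      (∀ x, NAffAt n κ ε f x) → ∀ O : Set (X × Y), IsOpen O → (∀ x, (x, f x) ∈ O) →
      ∃ f' : C(X, Y), ContinuousMap.HomotopicWith f f' (fun g => ∀ x, (x, g x) ∈ O) ∧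
        IsLocalDiffeomorph (𝓡 n) (𝓡 n) ∞ f' ∧
        (ConnectedSpace X → (SimplyConnectedSpace Y ∨ ∃ g : C(Y, X),
          (f.comp g).Homotopic (ContinuousMap.id Y)) →
          ∃ Φ : X ≃ₘ^∞⟮𝓡 n, 𝓡 n⟯ Y, ⇑Φ = ⇑f') :=
  main_of stNA Pool.Agent.Y391.NA.tub n κ

end Pool.Agent.Y522.NA
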