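import Pool.Agent.Y522.NA.Stm2

/-!
# Project CI: isotopies through smooth homeomorphisms of corank at most one (statements)
-/

set_option autoImplicit false

open Set Filter Topology Metric Function MeasureTheory
open scoped Manifold ContDiff

noncomputable section

namespace Pool.Agent.Y522.NA

open Pool.Agent.Y522

/-- Level preserving smoothing of smooth homeomorphisms which are local diffeomorphisms off a
compact set and have corank at most one there. -/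
def StCOL : Prop :=
  ∀ (m : ℕ) (X Y : Type) [TopologicalSpace X] [T2Space X]
    [ChartedSpace (E (m + 1)) X] [IsManifold (𝓡 (m + 1)) ∞ X] [TopologicalSpace Y] [T2Space Y]
    [ChartedSpace (E (m + 1)) Y] [IsManifold (𝓡 (m + 1)) ∞ Y] (f : X ≃ₜ Y) (τ : Y → ℝ),
    ContMDiff (𝓡 (m + 1)) (𝓡 (m + 1)) ∞ f → ContMDiff (𝓡 (m + 1)) 𝓘(ℝ, ℝ) ∞ τ →
    (∀ x, mfderiv (𝓡 (m + 1)) 𝓘(ℝ, ℝ) (fun x => τ (f x)) x ≠ 0) →
    (∀ x, m ≤ Module.finrank ℝ
      (LinearMap.range (mfderiv (𝓡 (m + 1)) (𝓡 (m + 1)) f x).toLinearMap)) →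
    IsCompact {x | ¬ LD (m + 1) f x} →
    ∃ (f' : X → Y) (C : Set X), IsCompact C ∧ Bijective f' ∧ (∀ x, LD (m + 1) f' x) ∧
      (∀ x, τ (f' x) = τ (f x)) ∧ ∀ x, x ∉ C → f' x = f x

/-- Smooth paths of smooth homeomorphisms of corank at most one between diffeomorphisms can be
replaced by smooth isotopies. -/
def StCOI : Prop :=
  ∀ (m : ℕ) (X Y : Type) [TopologicalSpace X] [T2Space X] [CompactSpace X]
    [ChartedSpace (E (m + 1)) X] [IsManifold (𝓡 (m + 1)) ∞ X] [TopologicalSpace Y] [T2Space Y]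
    [ChartedSpace (E (m + 1)) Y] [IsManifold (𝓡 (m + 1)) ∞ Y] (f : ℝ × X → Y),
    ContMDiff ((𝓘(ℝ, ℝ)).prod (𝓡 (m + 1))) (𝓡 (m + 1)) ∞ f →
    (∀ t, Bijective (fun x => f (t, x))) →
    (∀ t x, m ≤ Module.finrank ℝ
      (LinearMap.range (mfderiv (𝓡 (m + 1)) (𝓡 (m + 1)) (fun x => f (t, x)) x).toLinearMap)) →
    (∀ x, LD (m + 1) (fun x => f (0, x)) x) → (∀ x, LD (m + 1) (fun x => f (1, x)) x) →
    ∃ K : ℝ × X → Y, ContMDiff ((𝓘(ℝ, ℝ)).prod (𝓡 (m + 1))) (𝓡 (m + 1)) ∞ K ∧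
      (∀ t, Bijective (fun x => K (t, x))) ∧ (∀ t x, LD (m + 1) (fun x => K (t, x)) x) ∧
      (∀ x, K (0, x) = f (0, x)) ∧ ∀ x, K (1, x) = f (1, x)

end Pool.Agent.Y522.NA
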