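import Pool.Agent.Y522.NA.FinC
import Pool.Agent.Y761.CI.Lev
import Pool.Agent.Y434.CI.Main

/-!
# Project CI: everything together
-/

set_option autoImplicit false

open Set Filter Topology Metric Function
open scoped Manifold ContDiff

noncomputable section

namespace Pool.Agent.Y522.NA

open Pool.Agent.Y522

theorem coi_all : StCOI := Pool.Agent.Y434.CI.coi Pool.Agent.Y761.CI.col

/-- Smooth paths of smooth homeomorphisms of corank at most one, parametrized by the unit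
interval. -/
theorem coi_final (m : ℕ) (X Y : Type) [TopologicalSpace X] [T2Space X] [CompactSpace X]
    [ChartedSpace (E (m + 1)) X] [IsManifold (𝓡 (m + 1)) ∞ X] [TopologicalSpace Y] [T2Space Y]
    [ChartedSpace (E (m + 1)) Y] [IsManifold (𝓡 (m + 1)) ∞ Y] (f : ℝ × X → Y)
    (hf : ContMDiff ((𝓘(ℝ, ℝ)).prod (𝓡 (m + 1))) (𝓡 (m + 1)) ∞ f)
    (hb : ∀ t ∈ Icc (0 : ℝ) 1, Bijective (fun x => f (t, x)))
    (hr : ∀ t ∈ Icc (0 : ℝ) 1, ∀ x, m ≤ Module.finrank ℝ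
      (LinearMap.range (mfderiv (𝓡 (m + 1)) (𝓡 (m + 1)) (fun x => f (t, x)) x).toLinearMap))
    (h0 : ∀ x, LD (m + 1) (fun x => f (0, x)) x) (h1 : ∀ x, LD (m + 1) (fun x => f (1, x)) x) :
    ∃ K : ℝ × X → Y, ContMDiff ((𝓘(ℝ, ℝ)).prod (𝓡 (m + 1))) (𝓡 (m + 1)) ∞ K ∧
      (∀ t, Bijective (fun x => K (t, x))) ∧ (∀ t x, LD (m + 1) (fun x => K (t, x)) x) ∧
      (∀ x, K (0, x) = f (0, x)) ∧ ∀ x, K (1, x) = f (1, x) :=
  coi_unit coi_all m X Y f hf hb hr h0 h1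

end Pool.Agent.Y522.NA
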