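import Pool.Agent.Y522.NA.StmK
import Pool.Agent.Y756.KF.Lev
import Pool.Agent.Y813.KF.Ki

/-!
# Project KF: everything together
-/

set_option autoImplicit false

open Set Filter Topology Metric Function
open scoped Manifold ContDiff

noncomputable section

namespace Pool.Agent.Y522.NA

open Pool.Agent.Y522

/-- Smooth families of smooth homeomorphisms of corank at most one over a ball. -/
theorem ki_final : StKI := Pool.Agent.Y813.KF.ki Pool.Agent.Y756.KF.kl

end Pool.Agent.Y522.NA
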