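import Pool.Agent.Y522.NA.StmP
import Pool.Agent.Y98.NA.Term
import Pool.Agent.Y475.NA.Grow

/-!
# Uniform versions of StGrow and StTerm (proofs adapted from helper475 and helper98)
-/

set_option autoImplicit false

open Set Filter Topology Metric Function MeasureTheory
open scoped Manifold ContDiff Convolution

noncomputable section

namespace Pool.Agent.Y522.NA

open Pool.Agent.Y522 Pool.Agent.Y954.SH Pool.Agent.Y98.NA

variable {n q : ℕ}

theorem termQ (n : ℕ) (κ : ℝ) : ∃ C : ℝ, 0 < C ∧ ∀ (q : ℕ) (w₀ : E n) (E0 : E n → E q)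
    (T S : E n → E n) (y : E n),
    (∀ᶠ w in 𝓝 w₀, ContDiffAt ℝ ∞ E0 w) → Trans n κ T S y →
    ∃ r1 : ℝ, 0 < r1 ∧ ∀ R : ℝ, 0 < R → ∀ δ : ℝ, 0 < δ → ∃ ρ c₀ C' : ℝ, 0 < ρ ∧ 0 < c₀ ∧
      ∀ g : E n → E n, (∀ z, ‖z‖ < R → ContinuousAt g z ∧ g z ∈ ball w₀ r1) →
      ∀ z : E n, ‖z‖ < ρ → ∀ c : ℝ, 0 < c →
      c ≤ c₀ → ContDiffAt ℝ ∞ (Term n q g E0 T S c) z ∧
      ∀ (L : E n ≃L[ℝ] E n) (ε : ℝ), 0 ≤ ε → ε ≤ 1 →
        Apx n ε g z (2 * |κ| * c) L →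
        (∃ (η : E n) (ξ : E q), Term n q g E0 T S c z - E0 (g z) =
            fderiv ℝ E0 (g z) (L η) + ξ ∧ ‖η‖ ≤ C * c ∧
            ‖ξ‖ ≤ C' * (‖(L : E n →L[ℝ] E n)‖ * c) ^ 2) ∧
        ∀ u : E n, ∃ (η : E n) (ξ : E q), fderiv ℝ (Term n q g E0 T S c) z u =
            fderiv ℝ E0 (g z) (L (u + η)) + ξ ∧ ‖η‖ ≤ C * (ε + δ) * ‖u‖ ∧
            ‖ξ‖ ≤ C' * ‖(L : E n →L[ℝ] E n)‖ ^ 2 * c * ‖u‖ := by
  obtain ⟨K, hK⟩ : ∃ K, K = |κ| := ⟨_, rfl⟩
  have hK0 : 0 ≤ K := by rw [hK]; exact abs_nonneg κ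
  obtain ⟨M, hM⟩ : ∃ M, M = ∫ s, ‖fderiv ℝ (kr n) s‖ := ⟨_, rfl⟩
  have hM0 : 0 ≤ M := by rw [hM]; exact integral_nonneg fun s => norm_nonneg _
  refine ⟨2 * M * K ^ 2 + 2 * M * K + 3 * K + 1, by positivity, ?_⟩
  intro q w₀ E0 T S y hE hT
  obtain ⟨r1, C1, hr1, hC1, hTay⟩ := taylor2 hE
  refine ⟨r1, hr1, fun R hR δ hδ => ?_⟩
  have hSev : ∀ᶠ w in 𝓝 y, ContDiffAt ℝ ∞ S w := hT.ldS.eventually.mono fun w hw => hw.contDiffAt
  have hTev : ∀ᶠ z in 𝓝 (0 : E n), ContDiffAt ℝ ∞ T z :=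
    hT.ldT.eventually.mono fun w hw => hw.contDiffAt
  have hSl : ∀ᶠ w in 𝓝 y, ∀ᶠ w' in 𝓝 w, ‖S w' - S w‖ ≤ K * ‖w' - w‖ :=
    hT.lipS.mono fun w hw => hw.mono fun w' hw' =>
      hw'.trans (mul_le_mul_of_nonneg_right (by rw [hK]; exact le_abs_self κ) (norm_nonneg _))
  have hTl : ∀ᶠ w in 𝓝 (0 : E n), ∀ᶠ w' in 𝓝 w, ‖T w' - T w‖ ≤ K * ‖w' - w‖ :=
    hT.lipT.mono fun w hw => hw.mono fun w' hw' =>
      hw'.trans (mul_le_mul_of_nonneg_right (by rw [hK]; exact le_abs_self κ) (norm_nonneg _))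
  have hSy : S y = 0 := by
    have := hT.inv.self_of_nhds
    rwa [hT.pt] at this
  have hgS : ∀ᶠ w in 𝓝 y, ‖S w‖ < R := by
    have h1 : Tendsto S (𝓝 y) (𝓝 0) := by
      have := hSev.self_of_nhds.continuousAt
      rwa [ContinuousAt, hSy] at this
    have h2 : ∀ᶠ z in 𝓝 (0 : E n), ‖z‖ < R := by
      have h3 := ball_mem_nhds (0 : E n) hR
      filter_upwards [h3] with z hz
      exact mem_ball_zero_iff.1 hz
    exact h1.eventually h2
  obtain ⟨ra, hra, hSa⟩ := unif hK0 hSev hSl hδ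
  obtain ⟨rb, hrb, hSb⟩ := Metric.eventually_nhds_iff_ball.1 hgS
  obtain ⟨rc, hrc, hTc⟩ := unif hK0 hTev hTl one_pos
  obtain ⟨r, hr⟩ : ∃ r, r = min ra rb := ⟨_, rfl⟩
  have hr0 : 0 < r := by rw [hr]; exact lt_min hra hrb
  have hSa' : ∀ w ∈ ball y r, w ∈ ball y ra := fun w hw =>
    ball_subset_ball (by rw [hr]; exact min_le_left _ _) hw
  have hTy : ∀ᶠ z in 𝓝 (0 : E n), T z ∈ ball y (r / 4) := by
    have h1 := hTev.self_of_nhds.continuousAt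
    rw [ContinuousAt, hT.pt] at h1
    exact h1.eventually (ball_mem_nhds _ (by positivity))
  obtain ⟨rd, hrd, hTd⟩ := Metric.eventually_nhds_iff_ball.1
    (hTy.and (hT.inv.and (eventually_eventually_nhds.2 hT.inv)))
  refine ⟨min rc rd, r / 4, 9 * C1 * K ^ 2 + 9 * M * C1 * K ^ 3, lt_min hrc hrd, by positivity, ?_⟩
  intro g hg z hz c hc hc0
  have hSb' : ∀ w ∈ ball y r, ContinuousAt g (S w) ∧ g (S w) ∈ ball w₀ r1 := fun w hw =>
    hg _ (hSb w (ball_subset_ball (by rw [hr]; exact min_le_right _ _) hw))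
  have hzc : z ∈ ball (0 : E n) rc := by
    rw [mem_ball_zero_iff]
    exact hz.trans_le (min_le_left _ _)
  have hzd : z ∈ ball (0 : E n) rd := by
    rw [mem_ball_zero_iff]
    exact hz.trans_le (min_le_right _ _)
  obtain ⟨hTzy, hSTz, hSTev⟩ := hTd z hzd
  obtain ⟨hTs, hTn, -⟩ := hTc z hzc
  rw [mem_ball] at hTzy
  have hTzr : T z ∈ ball y r := by
    rw [mem_ball]
    linarith
  have hin : ∀ s : E n, ‖s‖ ≤ 1 → T z + c • s ∈ ball y r := by
    intro s hs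
    rw [mem_ball]
    calc dist (T z + c • s) y ≤ dist (T z + c • s) (T z) + dist (T z) y := dist_triangle _ _ _
      _ = c * ‖s‖ + dist (T z) y := by
          rw [dist_eq_norm, add_sub_cancel_left, norm_smul, Real.norm_of_nonneg hc.le]
      _ ≤ c * 1 + dist (T z) y := by gcongr
      _ < r := by linarith
  -- the derivative of the inverse
  have hSd : HasFDerivAt S (fderiv ℝ S (T z)) (T z) :=
    ((hSa _ (hSa' _ hTzr)).1.differentiableAt (by simp)).hasFDerivAt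
  have hTd' : HasFDerivAt T (fderiv ℝ T z) z := (hTs.differentiableAt (by simp)).hasFDerivAt
  have hcomp : ∀ u, fderiv ℝ S (T z) (fderiv ℝ T z u) = u := by
    intro u
    have h1 : HasFDerivAt (fun z => z) ((fderiv ℝ S (T z)).comp (fderiv ℝ T z)) z :=
      (hSd.comp z hTd').congr_of_eventuallyEq (hSTev.mono fun z' hz' => hz'.symm)
    have h2 := h1.unique (hasFDerivAt_id z)
    exact DFunLike.congr_fun h2 u
  -- the mollification
  obtain ⟨H, hH⟩ : ∃ H : E n → E q, H = fun w => E0 (g (S w)) := ⟨_, rfl⟩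
  have hgSc : ContinuousOn (fun w => g (S w)) (ball y r) := by
    intro w hw
    exact ((hSb' w hw).1.comp (hSa _ (hSa' _ hw)).1.continuousAt).continuousWithinAt
  have hHc : ContinuousOn H (ball y r) := by
    intro w hw
    rw [hH]
    have h1 : ContinuousAt E0 (g (S w)) := (hTay _ (hSb' w hw).2).1.continuousAt
    exact ContinuousAt.comp_continuousWithinAt (f := fun w => g (S w)) h1 (hgSc w hw)
  obtain ⟨m, hm⟩ : ∃ m : E n → E q, m = fun w => ∫ s, kr n s • H (w + c • s) := ⟨_, rfl⟩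
  have hTerm : Term n q g E0 T S c = fun z => m (T z) := by
    rw [hm, hH]
    rfl
  obtain ⟨hm1, hm2⟩ := mol_loc (y := y) (R := r / 2)
    (hHc.mono (closedBall_subset_ball (by linarith))) hc (w := T z) (by linarith)
  rw [← hm] at hm1 hm2
  refine ⟨by rw [hTerm]; exact hm1.comp z hTs, ?_⟩
  intro L ε hε0 hε1 hL
  obtain ⟨x, hx⟩ : ∃ x : E n → E n, x = fun s => g (S (T z + c • s)) - g z := ⟨_, rfl⟩
  obtain ⟨h, hh⟩ : ∃ h : E n → E q, h = fun s => H (T z + c • s) := ⟨_, rfl⟩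
  have hmap : MapsTo (fun s : E n => T z + c • s) (closedBall 0 1) (ball y r) := fun s hs =>
    hin s (mem_closedBall_zero_iff.1 hs)
  have hlin : Continuous fun s : E n => T z + c • s := by fun_prop
  have hxc : ContinuousOn x (closedBall 0 1) := by
    rw [hx]
    exact (hgSc.comp hlin.continuousOn hmap).sub continuousOn_const
  have hhc : ContinuousOn h (closedBall 0 1) := by
    rw [hh]
    exact hHc.comp hlin.continuousOn hmap
  have hgz : g z ∈ ball w₀ r1 := by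
    have := (hSb' _ hTzr).2
    rwa [hSTz] at this
  -- estimates
  have hv1 : ∀ s : E n, ‖s‖ ≤ 1 → ‖S (T z + c • s) - z‖ ≤ K * c := by
    intro s hs
    have h1 := ((hSa _ (hSa' _ hTzr)).2.2 _ (hSa' _ (hin s hs))).1
    rw [hSTz, add_sub_cancel_left, norm_smul, Real.norm_of_nonneg hc.le] at h1
    refine h1.trans (mul_le_mul_of_nonneg_left ?_ hK0)
    nlinarith
  have hv2 : ∀ s : E n, ‖s‖ ≤ 1 →
      ‖S (T z + c • s) - z - c • fderiv ℝ S (T z) s‖ ≤ δ * c := by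
    intro s hs
    have h1 := ((hSa _ (hSa' _ hTzr)).2.2 _ (hSa' _ (hin s hs))).2
    rw [hSTz, add_sub_cancel_left, norm_smul, Real.norm_of_nonneg hc.le, map_smul] at h1
    refine h1.trans (mul_le_mul_of_nonneg_left ?_ hδ.le)
    nlinarith
  have hb1 : ∀ s : E n, ‖s‖ ≤ 1 → ‖L.symm (x s) - (S (T z + c • s) - z)‖ ≤ ε * (2 * K * c) := by
    intro s hs
    have h1 := hL (S (T z + c • s) - z) (by
      rw [← hK]
      refine (hv1 s hs).trans ?_
      nlinarith [mul_nonneg hK0 hc.le])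
    rw [add_sub_cancel, ← hK] at h1
    rw [hx]
    exact h1
  have hb2 : ∀ s : E n, ‖s‖ ≤ 1 → ‖L.symm (x s)‖ ≤ 3 * K * c := by
    intro s hs
    have h1 := norm_add_le (L.symm (x s) - (S (T z + c • s) - z)) (S (T z + c • s) - z)
    rw [sub_add_cancel] at h1
    have h2 := hb1 s hs
    have h3 := hv1 s hs
    nlinarith [mul_nonneg hK0 hc.le]
  have hb3 : ∀ s : E n, ‖s‖ ≤ 1 →
      ‖L.symm (x s) - c • fderiv ℝ S (T z) s‖ ≤ (2 * K * ε + δ) * c := by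
    intro s hs
    have h1 := norm_add_le (L.symm (x s) - (S (T z + c • s) - z))
      (S (T z + c • s) - z - c • fderiv ℝ S (T z) s)
    rw [sub_add_sub_cancel] at h1
    have h2 := hb1 s hs
    have h3 := hv2 s hs
    nlinarith
  have hx1 : ∀ s : E n, ‖s‖ ≤ 1 → ‖x s‖ ≤ ‖(L : E n →L[ℝ] E n)‖ * (3 * K * c) := by
    intro s hs
    have h1 := (L : E n →L[ℝ] E n).le_opNorm (L.symm (x s))
    rw [ContinuousLinearEquiv.coe_coe, L.apply_symm_apply] at h1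
    exact h1.trans (mul_le_mul_of_nonneg_left (hb2 s hs) (norm_nonneg _))
  have hR : ∀ s : E n, ‖s‖ ≤ 1 → ‖h s - E0 (g z) - fderiv ℝ E0 (g z) (x s)‖ ≤
      9 * C1 * K ^ 2 * (‖(L : E n →L[ℝ] E n)‖ * c) ^ 2 := by
    intro s hs
    have h1 := (hTay _ hgz).2 _ (hSb' _ (hin s hs)).2
    have h2 : ‖x s‖ ^ 2 ≤ (‖(L : E n →L[ℝ] E n)‖ * (3 * K * c)) ^ 2 :=
      pow_le_pow_left₀ (norm_nonneg _) (hx1 s hs) 2
    rw [hh, hH]
    have e : g (S (T z + c • s)) - g z = x s := by rw [hx]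
    rw [e] at h1
    refine h1.trans ((mul_le_mul_of_nonneg_left h2 hC1).trans (le_of_eq ?_))
    ring
  refine ⟨?_, fun u => ?_⟩
  · obtain ⟨ξ, h1, h2⟩ := core kr_smooth.continuous (fun _ h => kr_zero h) hxc hhc L
      (fderiv ℝ E0 (g z)) (E0 (g z)) hR
    rw [kr_int, one_smul] at h1
    rw [kr_norm, one_mul] at h2
    refine ⟨∫ s, kr n s • L.symm (x s), ξ, ?_, ?_, ?_⟩
    · have e : Term n q g E0 T S c z = ∫ s, kr n s • h s := by
        rw [hTerm, hm, hh]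
      rw [e, h1]
      abel
    · have h3 := int_bd kr_smooth.continuous (fun _ h => kr_zero h) hb2
      rw [kr_norm, one_mul] at h3
      refine h3.trans (mul_le_mul_of_nonneg_right ?_ hc.le)
      have : 0 ≤ 2 * M * K ^ 2 + 2 * M * K := by positivity
      linarith
    · refine h2.trans (mul_le_mul_of_nonneg_right ?_ (by positivity))
      have : 0 ≤ 9 * M * C1 * K ^ 3 := by positivity
      linarith
  · obtain ⟨a, ha⟩ : ∃ a, a = fderiv ℝ T z u := ⟨_, rfl⟩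
    have han : ‖a‖ ≤ K * ‖u‖ := by
      rw [ha]
      exact ((fderiv ℝ T z).le_opNorm u).trans (mul_le_mul_of_nonneg_right hTn (norm_nonneg _))
    have hk1 : ∫ s, ‖k1 a s‖ ≤ M * (K * ‖u‖) := by
      refine (k1_norm a).trans ?_
      rw [← hM]
      exact mul_le_mul_of_nonneg_left han hM0
    obtain ⟨ξ, h1, h2⟩ := core (k1_cont a) (fun _ h => k1_zero h) hxc hhc L
      (fderiv ℝ E0 (g z)) (E0 (g z)) hR
    rw [k1_int, zero_smul, zero_add] at h1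
    obtain ⟨η, h3, h4⟩ : ∃ η, ∫ s, k1 a s • L.symm (x s) = c • fderiv ℝ S (T z) a + η ∧
        ‖η‖ ≤ (∫ s, ‖k1 a s‖) * ((2 * K * ε + δ) * c) := by
      refine ⟨∫ s, k1 a s • (L.symm (x s) - c • fderiv ℝ S (T z) s), ?_,
        int_bd (k1_cont a) (fun _ h => k1_zero h) hb3⟩
      have i1 : Integrable (fun s => k1 a s • L.symm (x s)) :=
        int_cut (k1_cont a) (fun _ h => k1_zero h) (L.symm.continuous.comp_continuousOn hxc)
      have i2 : Integrable (fun s => k1 a s • c • fderiv ℝ S (T z) s) :=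
        int_cut (k1_cont a) (fun _ h => k1_zero h) (by fun_prop)
      have i3 : Integrable (fun s => k1 a s • s) :=
        int_cut (f := fun s => s) (k1_cont a) (fun _ h => k1_zero h) continuousOn_id
      have e1 : c • fderiv ℝ S (T z) a = ∫ s, k1 a s • c • fderiv ℝ S (T z) s := by
        have h5 := (c • fderiv ℝ S (T z)).integral_comp_comm i3
        rw [k1_mom] at h5
        refine Eq.trans ?_ (h5.symm.trans ?_)
        · rfl
        · congr 1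
          funext s
          rw [map_smul]
          rfl
      simp only [smul_sub]
      rw [e1, integral_sub i1 i2]
      abel
    have hD : fderiv ℝ (Term n q g E0 T S c) z u = c⁻¹ • ∫ s, k1 a s • h s := by
      have h5 : HasFDerivAt m (fderiv ℝ m (T z)) (T z) :=
        (hm1.differentiableAt (by simp)).hasFDerivAt
      have h6 : HasFDerivAt (fun z => m (T z)) ((fderiv ℝ m (T z)).comp (fderiv ℝ T z)) z :=
        h5.comp z hTd'
      rw [hTerm, h6.fderiv, ContinuousLinearMap.comp_apply, hm2, ← ha, hh]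
    refine ⟨c⁻¹ • η, c⁻¹ • ξ, ?_, ?_, ?_⟩
    · rw [hD, h1, h3, ha, hcomp u]
      simp only [map_add, map_smul, smul_add]
      rw [smul_smul, inv_mul_cancel₀ hc.ne', one_smul]
    · rw [norm_smul, norm_inv, Real.norm_of_nonneg hc.le]
      have h5 : ‖η‖ ≤ M * (K * ‖u‖) * ((2 * K * ε + δ) * c) :=
        h4.trans (mul_le_mul_of_nonneg_right hk1 (by positivity))
      rw [inv_mul_le_iff₀ hc]
      refine h5.trans ?_
      have h6 : M * (K * ‖u‖) * ((2 * K * ε + δ) * c) =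
          c * ((2 * M * K ^ 2 * ε + M * K * δ) * ‖u‖) := by ring
      rw [h6]
      refine mul_le_mul_of_nonneg_left (mul_le_mul_of_nonneg_right ?_ (norm_nonneg _)) hc.le
      have h7 : 0 ≤ 2 * M * K ^ 2 * δ := by positivity
      have h8 : 0 ≤ 2 * M * K * ε := by positivity
      have h9 : 0 ≤ M * K * δ := by positivity
      have h10 : 0 ≤ (3 * K + 1) * (ε + δ) := by positivity
      nlinarith
    · rw [norm_smul, norm_inv, Real.norm_of_nonneg hc.le]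
      have h5 : ‖ξ‖ ≤ M * (K * ‖u‖) * (9 * C1 * K ^ 2 * (‖(L : E n →L[ℝ] E n)‖ * c) ^ 2) :=
        h2.trans (mul_le_mul_of_nonneg_right hk1 (by positivity))
      rw [inv_mul_le_iff₀ hc]
      refine h5.trans ?_
      have h6 : M * (K * ‖u‖) * (9 * C1 * K ^ 2 * (‖(L : E n →L[ℝ] E n)‖ * c) ^ 2) =
          c * (9 * M * C1 * K ^ 3 * ‖(L : E n →L[ℝ] E n)‖ ^ 2 * c * ‖u‖) := by ring
      rw [h6]
      have h7 : 0 ≤ 9 * C1 * K ^ 2 := by positivity
      gcongr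
      linarith


theorem termP : StTermP := by
  intro n κ
  obtain ⟨C, hC, h⟩ := termQ n κ
  refine ⟨C, hC, fun q g t₀ E0 T S y hg hE hT δ hδ => ?_⟩
  obtain ⟨r1, hr1, h1⟩ := h q (g t₀ 0) E0 T S y hE hT
  have h2 : ∀ᶠ w in 𝓝 (t₀, (0 : E n)),
      ContinuousAt (fun w : ℝ × E n => g w.1 w.2) w ∧ g w.1 w.2 ∈ ball (g t₀ 0) r1 :=
    hg.and (hg.self_of_nhds.eventually (ball_mem_nhds _ hr1))
  obtain ⟨R, hR, h3⟩ := Metric.eventually_nhds_iff_ball.1 h2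
  obtain ⟨ρ, c₀, C', hρ, hc₀, h4⟩ := h1 R hR δ hδ
  refine ⟨min ρ R, c₀, C', lt_min hρ hR, hc₀, fun t ht z hz c hc hc' => ?_⟩
  refine h4 (g t) (fun z hz => ?_) z (hz.trans_le (min_le_left _ _)) c hc hc'
  have h5 : (t, z) ∈ ball (t₀, (0 : E n)) R := by
    rw [mem_ball, Prod.dist_eq, max_lt_iff]
    refine ⟨?_, ?_⟩
    · rw [Real.dist_eq]
      exact ht.trans_le (min_le_right _ _)
    · rw [dist_zero_right]
      exact hz
  obtain ⟨h6, h7⟩ := h3 _ h5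
  exact ⟨ContinuousAt.comp (f := fun z => (t, z)) h6 (by fun_prop), h7⟩

theorem growQ (n : ℕ) (ρ : ℝ) (hρ : 0 < ρ) (Λ : E n ≃L[ℝ] E n) (η : ℝ) (hη : 0 < η) :
    ∃ c₀ : ℝ, 0 < c₀ ∧ ∀ g : E n → E n, NAff n (1 / 1000) ρ g →
      Apx n (1 / 1000) g 0 (ρ / 2) Λ → ∀ p : E n, ‖p‖ < ρ / 16 → ∀ c : ℝ, 0 < c → c ≤ c₀ →
      ∀ L : E n ≃L[ℝ] E n, Apx n (1 / 1000) g p c L →
      ‖(L.symm : E n →L[ℝ] E n)‖ * ‖(L : E n →L[ℝ] E n)‖ ^ 2 * c ≤ η ∧
      ‖(L : E n →L[ℝ] E n)‖ * c ≤ η := by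
  obtain ⟨a, ha⟩ : ∃ a, a = ‖(Λ.symm : E n →L[ℝ] E n)‖ := ⟨_, rfl⟩
  obtain ⟨b, hb⟩ : ∃ b, b = ‖(Λ : E n →L[ℝ] E n)‖ := ⟨_, rfl⟩
  have ha0 : 0 ≤ a := ha ▸ norm_nonneg _
  have hb0 : 0 ≤ b := hb ▸ norm_nonneg _
  obtain ⟨D, hD⟩ : ∃ D, D = 2 * (a * b ^ 2 * (ρ / 8)) + 2 * (b * (ρ / 8)) + 1 := ⟨_, rfl⟩
  have hD0 : 0 < D := by
    rw [hD]
    positivity
  obtain ⟨k₀, hk₀⟩ := exists_pow_lt_of_lt_one (show 0 < η / D by positivity)
    (show (3 / 4 : ℝ) < 1 by norm_num)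
  refine ⟨ρ / 8 / 2 ^ k₀, by positivity, fun g hg hΛ p hp c hc hc0 L hL => ?_⟩
  obtain ⟨k, hk, hk1, hk2⟩ := Pool.Agent.Y475.NA.exists_scale (ρ / 8) c hc (by positivity) k₀ hc0
  obtain ⟨h1, h2⟩ := Pool.Agent.Y475.NA.steps n g ρ hρ hg Λ hΛ p hp k c hk1 hk2 L hL
  rw [← hb] at h1
  rw [← ha] at h2
  have hL0 := norm_nonneg (L : E n →L[ℝ] E n)
  have hLs0 := norm_nonneg (L.symm : E n →L[ℝ] E n)
  generalize ‖(L : E n →L[ℝ] E n)‖ = l at h1 hL0 ⊢
  generalize ‖(L.symm : E n →L[ℝ] E n)‖ = m at h2 hLs0 ⊢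
  have h34 : (3 / 4 : ℝ) ^ k * D ≤ η := by
    have h3 : (3 / 4 : ℝ) ^ k ≤ (3 / 4) ^ k₀ := pow_le_pow_of_le_one (by norm_num) (by norm_num) hk
    have h4 : (3 / 4 : ℝ) ^ k₀ * D ≤ η := by
      rw [lt_div_iff₀ hD0] at hk₀
      exact hk₀.le
    exact (mul_le_mul_of_nonneg_right h3 hD0.le).trans h4
  have h34' : (0 : ℝ) ≤ (3 / 4 : ℝ) ^ k := by positivity
  obtain ⟨q, hq⟩ : ∃ q : ℝ, q = (51 / 50) ^ k := ⟨_, rfl⟩
  have hq0 : 0 < q := by
    rw [hq]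
    positivity
  rw [pow_succ, ← hq] at h1 h2
  have h2k : (0 : ℝ) < 2 ^ k := by positivity
  have hq3 : q ^ 3 / 2 ^ k ≤ (3 / 4 : ℝ) ^ k := by
    rw [hq, ← pow_mul, mul_comm k 3, pow_mul, ← div_pow]
    exact pow_le_pow_left₀ (by norm_num) (by norm_num) k
  have hq1 : q / 2 ^ k ≤ (3 / 4 : ℝ) ^ k := by
    rw [hq, ← div_pow]
    exact pow_le_pow_left₀ (by norm_num) (by norm_num) k
  constructor
  · calc m * l ^ 2 * c ≤ (q * (51 / 50) * a) * (q * (51 / 50) * b) ^ 2 * (ρ / 8 / 2 ^ k) := by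
          gcongr
      _ = (51 / 50) ^ 3 * (a * b ^ 2 * (ρ / 8)) * (q ^ 3 / 2 ^ k) := by
          field_simp
      _ ≤ (51 / 50) ^ 3 * (a * b ^ 2 * (ρ / 8)) * (3 / 4 : ℝ) ^ k := by
          apply mul_le_mul_of_nonneg_left hq3
          positivity
      _ ≤ (3 / 4 : ℝ) ^ k * D := by
          rw [mul_comm]
          apply mul_le_mul_of_nonneg_left _ h34'
          rw [hD]
          have x1 : 0 ≤ a * b ^ 2 * (ρ / 8) := by positivity
          have x2 : 0 ≤ b * (ρ / 8) := by positivity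
          nlinarith
      _ ≤ η := h34
  · calc l * c ≤ (q * (51 / 50) * b) * (ρ / 8 / 2 ^ k) := by
          gcongr
      _ = (51 / 50) * (b * (ρ / 8)) * (q / 2 ^ k) := by
          field_simp
      _ ≤ (51 / 50) * (b * (ρ / 8)) * (3 / 4 : ℝ) ^ k := by
          apply mul_le_mul_of_nonneg_left hq1
          positivity
      _ ≤ (3 / 4 : ℝ) ^ k * D := by
          rw [mul_comm]
          apply mul_le_mul_of_nonneg_left _ h34'
          rw [hD]
          have x1 : 0 ≤ a * b ^ 2 * (ρ / 8) := by positivity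
          have x2 : 0 ≤ b * (ρ / 8) := by positivity
          nlinarith
      _ ≤ η := h34


theorem NAff.mono {n : ℕ} {ε ε' ρ ρ' : ℝ} {g : E n → E n} (h : NAff n ε ρ g) (hε : ε ≤ ε')
    (hρ : ρ' ≤ ρ) : NAff n ε' ρ' g := by
  intro p hp r hr hr'
  obtain ⟨L, hL⟩ := h p (hp.trans_le hρ) r hr (hr'.trans_le hρ)
  exact ⟨L, fun v hv => (hL v hv).trans (mul_le_mul_of_nonneg_right hε hr.le)⟩

theorem growP : StGrowP := by
  intro n
  refine ⟨1 / 2000, by norm_num, fun g t₀ ρ hρ hg hN η hη => ?_⟩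
  obtain ⟨R, hR, hR'⟩ := Metric.eventually_nhds_iff_ball.1 hg
  obtain ⟨ρ₁, hρ₁⟩ : ∃ ρ₁, ρ₁ = min ρ R := ⟨_, rfl⟩
  have hρ₁0 : 0 < ρ₁ := by rw [hρ₁]; exact lt_min hρ hR
  have hρ₁1 : ρ₁ ≤ ρ := by rw [hρ₁]; exact min_le_left _ _
  have hρ₁2 : ρ₁ ≤ R := by rw [hρ₁]; exact min_le_right _ _
  obtain ⟨Λ, hΛ⟩ := hN.self_of_nhds 0 (by rw [norm_zero]; exact hρ) (ρ₁ / 2) (by positivity)
    (by linarith)
  obtain ⟨c₀, hc₀, h⟩ := growQ n ρ₁ hρ₁0 Λ η hη
  obtain ⟨a, ha⟩ : ∃ a, a = ‖(Λ.symm : E n →L[ℝ] E n)‖ := ⟨_, rfl⟩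
  have ha0 : 0 ≤ a := ha ▸ norm_nonneg _
  obtain ⟨θ, hθ⟩ : ∃ θ, θ = ρ₁ / 4000 / (a + 1) := ⟨_, rfl⟩
  have hθ0 : 0 < θ := by rw [hθ]; positivity
  have hc : ∀ v : E n, ‖v‖ ≤ ρ₁ / 2 → ContinuousAt (fun w : ℝ × E n => g w.1 w.2) (t₀, v) := by
    intro v hv
    refine hR' _ ?_
    rw [mem_ball, Prod.dist_eq, dist_self, dist_zero_right]
    rw [max_lt_iff]
    exact ⟨hR, by linarith⟩
  have hev : ∀ᶠ t in 𝓝 t₀, ∀ v ∈ closedBall (0 : E n) (ρ₁ / 2),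
      ‖(g t v - g t 0) - (g t₀ v - g t₀ 0)‖ < θ := by
    refine (isCompact_closedBall (0 : E n) (ρ₁ / 2)).eventually_forall_of_forall_eventually
      fun v hv => ?_
    have h1 : ContinuousAt (fun w : ℝ × E n => ‖(g w.1 w.2 - g w.1 0) - (g t₀ w.2 - g t₀ 0)‖)
        (t₀, v) := by
      have e1 := hc v (mem_closedBall_zero_iff.1 hv)
      have e2 := hc 0 (by rw [norm_zero]; positivity)
      have e3 : ContinuousAt (fun w : ℝ × E n => g w.1 0) (t₀, v) :=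
        ContinuousAt.comp (f := fun w : ℝ × E n => (w.1, (0 : E n)))
          (g := fun w : ℝ × E n => g w.1 w.2) e2 (by fun_prop)
      have e4 : ContinuousAt (fun w : ℝ × E n => g t₀ w.2) (t₀, v) :=
        ContinuousAt.comp (f := fun w : ℝ × E n => (t₀, w.2))
          (g := fun w : ℝ × E n => g w.1 w.2) e1 (by fun_prop)
      exact ((e1.sub e3).sub (e4.sub continuousAt_const)).norm
    refine h1.eventually_lt_const ?_
    simpa using hθ0
  obtain ⟨s, hs, hs'⟩ := Metric.eventually_nhds_iff_ball.1 (hev.and hN)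
  refine ⟨min s (ρ₁ / 16), c₀, lt_min hs (by positivity), hc₀, fun t ht p hp c hc hc' L hL => ?_⟩
  obtain ⟨h1, h2⟩ := hs' t (by
    rw [mem_ball, Real.dist_eq]
    exact ht.trans_le (min_le_left _ _))
  refine h (g t) (h2.mono (by norm_num) hρ₁1) (fun v hv => ?_) p
    (hp.trans_le (min_le_right _ _)) c hc hc' L
    (fun v hv => (hL v hv).trans (mul_le_mul_of_nonneg_right (by norm_num) hc.le))
  have h3 := h1 v (mem_closedBall_zero_iff.2 hv)
  have h4 := hΛ v hv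
  rw [zero_add] at h4 ⊢
  have h5 : Λ.symm (g t v - g t 0) - v = (Λ.symm (g t₀ v - g t₀ 0) - v) +
      Λ.symm ((g t v - g t 0) - (g t₀ v - g t₀ 0)) := by
    rw [map_sub Λ.symm (g t v - g t 0)]
    abel
  rw [h5]
  have h6 : ‖Λ.symm ((g t v - g t 0) - (g t₀ v - g t₀ 0))‖ ≤ a * θ := by
    rw [ha]
    exact ((Λ.symm : E n →L[ℝ] E n).le_opNorm _).trans
      (mul_le_mul_of_nonneg_left h3.le (norm_nonneg _))
  have h7 : a * θ ≤ ρ₁ / 4000 := by
    rw [hθ, mul_div_assoc', div_le_iff₀ (by positivity)]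
    nlinarith
  refine (norm_add_le _ _).trans ?_
  linarith

end Pool.Agent.Y522.NA
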