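import Pool.Agent.Y522.NA.Stm
import Pool.Agent.Y522.Stm7

/-!
# Project NP: paths of nearly affine maps, and nearly affine balls (statements)
-/

set_option autoImplicit false

open Set Filter Topology Metric Function MeasureTheory
open scoped Manifold ContDiff

noncomputable section

namespace Pool.Agent.Y522.NA

open Pool.Agent.Y522

section

variable (n : ℕ) {X Y : Type} [MetricSpace X] [ChartedSpace (E n) X] [TopologicalSpace Y]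
  [ChartedSpace (E n) Y]

/-- `f t` is nearly affine at `x`, uniformly for the parameters `t` near `t₀` -/
def NAffAtP (κ ε : ℝ) (f : ℝ → X → Y) (t₀ : ℝ) (x : X) : Prop :=
  ∃ (A : E n → X) (B : Y → E n), A 0 = x ∧ LD n A 0 ∧ LD n B (f t₀ x) ∧
    ∃ ρ : ℝ, 0 < ρ ∧ BLip n κ ρ A ∧ ∀ t, |t - t₀| < ρ → NAff n ε ρ (fun z => B (f t (A z)))

/-- the same with the parameters restricted to `[0, 1]` -/
def NAffAtI (κ ε : ℝ) (f : ℝ → X → Y) (t₀ : ℝ) (x : X) : Prop :=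
  ∃ (A : E n → X) (B : Y → E n), A 0 = x ∧ LD n A 0 ∧ LD n B (f t₀ x) ∧
    ∃ ρ : ℝ, 0 < ρ ∧ BLip n κ ρ A ∧
      ∀ t ∈ Icc (0 : ℝ) 1, |t - t₀| < ρ → NAff n ε ρ (fun z => B (f t (A z)))

end

/-- near `(t₀, x)`, `G` is a continuous path of `C¹` maps, smooth in the space variable -/
def C1At (n q : ℕ) {X : Type} [TopologicalSpace X] [ChartedSpace (E n) X] (G : ℝ → X → E q)
    (t₀ : ℝ) (x : X) : Prop :=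
  ∃ A : E n → X, A 0 = x ∧ LD n A 0 ∧
    (∀ᶠ w in 𝓝 (t₀, (0 : E n)), ContDiffAt ℝ ∞ (fun z => G w.1 (A z)) w.2) ∧
    ContinuousAt (fun w : ℝ × E n => G w.1 (A w.2)) (t₀, 0) ∧
    ContinuousAt (fun w : ℝ × E n => fderiv ℝ (fun z => G w.1 (A z)) w.2) (t₀, 0)

/-- Paths of local diffeomorphisms which are continuous in the `C¹` topology can be replaced by
smooth paths of local diffeomorphisms with the same ends. -/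
def StSP : Prop :=
  ∀ (n q : ℕ) (X Y : Type) [TopologicalSpace X] [T2Space X] [CompactSpace X]
    [ChartedSpace (E n) X] [IsManifold (𝓡 n) ∞ X] [TopologicalSpace Y] [T2Space Y]
    [ChartedSpace (E n) Y] [IsManifold (𝓡 n) ∞ Y] (π : E q → Y) (G : ℝ → X → E q),
    (∀ t x, C1At n q G t x) →
    (∀ t x, ∀ᶠ w in 𝓝 (G t x), ContMDiffAt (𝓡 q) (𝓡 n) ∞ π w) →
    (∀ t x, LD n (fun x => π (G t x)) x) →
    ∃ K : ℝ × X → Y, ContMDiff ((𝓘(ℝ, ℝ)).prod (𝓡 n)) (𝓡 n) ∞ K ∧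
      (∀ t x, LD n (fun x => K (t, x)) x) ∧ (∀ t x, t ≤ 0 → K (t, x) = π (G 0 x)) ∧
      ∀ t x, 1 ≤ t → K (t, x) = π (G 1 x)

/-- The mollification of a local diffeomorphism is `C¹`-close to it. -/
def StEnd : Prop :=
  ∀ (n : ℕ) (κ : ℝ) (q : ℕ) (g : E n → E n) (E0 : E n → E q) (T S : E n → E n) (y : E n),
    LD n g 0 → (∀ᶠ w in 𝓝 (g 0), ContDiffAt ℝ ∞ E0 w) → Trans n κ T S y → ∀ δ : ℝ, 0 < δ →
    ∃ ρ c₀ : ℝ, 0 < ρ ∧ 0 < c₀ ∧ ∀ z : E n, ‖z‖ < ρ → ∀ c : ℝ, 0 < c → c ≤ c₀ →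
      ContDiffAt ℝ ∞ (Term n q g E0 T S c) z ∧ ‖Term n q g E0 T S c z - E0 (g z)‖ ≤ δ ∧
      ‖fderiv ℝ (Term n q g E0 T S c) z - fderiv ℝ (fun z => E0 (g z)) z‖ ≤ δ

/-- Joint continuity of the mollification and of its derivative. -/
def StJC : Prop :=
  ∀ (n q : ℕ) (κ : ℝ) (g : ℝ → E n → E n) (t₀ : ℝ) (E0 : E n → E q) (T S : E n → E n) (y : E n),
    (∀ᶠ w in 𝓝 (t₀, (0 : E n)), ContinuousAt (fun w : ℝ × E n => g w.1 w.2) w) →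
    (∀ᶠ w in 𝓝 (g t₀ 0), ContDiffAt ℝ ∞ E0 w) → Trans n κ T S y →
    ∃ ρ c₀ : ℝ, 0 < ρ ∧ 0 < c₀ ∧ ∀ t : ℝ, |t - t₀| < ρ → ∀ z : E n, ‖z‖ < ρ → ∀ c : ℝ, 0 < c →
      c ≤ c₀ → ContDiffAt ℝ ∞ (Term n q (g t) E0 T S c) z ∧
        ContinuousAt (fun w : ℝ × E n => Term n q (g w.1) E0 T S c w.2) (t, z) ∧
        ContinuousAt (fun w : ℝ × E n => fderiv ℝ (Term n q (g w.1) E0 T S c) w.2) (t, z)

/-- The approximating linear maps degenerate slowly, uniformly in the parameter. -/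
def StGrowP : Prop :=
  ∀ n : ℕ, ∃ ε₁ : ℝ, 0 < ε₁ ∧ ∀ (g : ℝ → E n → E n) (t₀ ρ : ℝ), 0 < ρ →
    (∀ᶠ w in 𝓝 (t₀, (0 : E n)), ContinuousAt (fun w : ℝ × E n => g w.1 w.2) w) →
    (∀ᶠ t in 𝓝 t₀, NAff n ε₁ ρ (g t)) → ∀ η : ℝ, 0 < η → ∃ ρ' c₀ : ℝ, 0 < ρ' ∧ 0 < c₀ ∧
    ∀ t : ℝ, |t - t₀| < ρ' → ∀ p : E n, ‖p‖ < ρ' → ∀ c : ℝ, 0 < c → c ≤ c₀ →
      ∀ L : E n ≃L[ℝ] E n, Apx n ε₁ (g t) p c L →
      ‖(L.symm : E n →L[ℝ] E n)‖ * ‖(L : E n →L[ℝ] E n)‖ ^ 2 * c ≤ η ∧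
      ‖(L : E n →L[ℝ] E n)‖ * c ≤ η

/-- Derivative of one term, uniformly in the parameter. -/
def StTermP : Prop :=
  ∀ (n : ℕ) (κ : ℝ), ∃ C : ℝ, 0 < C ∧ ∀ (q : ℕ) (g : ℝ → E n → E n) (t₀ : ℝ) (E0 : E n → E q)
    (T S : E n → E n) (y : E n),
    (∀ᶠ w in 𝓝 (t₀, (0 : E n)), ContinuousAt (fun w : ℝ × E n => g w.1 w.2) w) →
    (∀ᶠ w in 𝓝 (g t₀ 0), ContDiffAt ℝ ∞ E0 w) → Trans n κ T S y →
    ∀ δ : ℝ, 0 < δ → ∃ ρ c₀ C' : ℝ, 0 < ρ ∧ 0 < c₀ ∧ ∀ t : ℝ, |t - t₀| < ρ →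
      ∀ z : E n, ‖z‖ < ρ → ∀ c : ℝ, 0 < c →
      c ≤ c₀ → ContDiffAt ℝ ∞ (Term n q (g t) E0 T S c) z ∧
      ∀ (L : E n ≃L[ℝ] E n) (ε : ℝ), 0 ≤ ε → ε ≤ 1 →
        Apx n ε (g t) z (2 * |κ| * c) L →
        (∃ (η : E n) (ξ : E q), Term n q (g t) E0 T S c z - E0 (g t z) =
            fderiv ℝ E0 (g t z) (L η) + ξ ∧ ‖η‖ ≤ C * c ∧
            ‖ξ‖ ≤ C' * (‖(L : E n →L[ℝ] E n)‖ * c) ^ 2) ∧
        ∀ u : E n, ∃ (η : E n) (ξ : E q), fderiv ℝ (Term n q (g t) E0 T S c) z u =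
            fderiv ℝ E0 (g t z) (L (u + η)) + ξ ∧ ‖η‖ ≤ C * (ε + δ) * ‖u‖ ∧
            ‖ξ‖ ≤ C' * ‖(L : E n →L[ℝ] E n)‖ ^ 2 * c * ‖u‖

/-- The local theorem with a parameter. -/
def StLocP : Prop :=
  ∀ (n : ℕ) (κ : ℝ), ∃ ε : ℝ, 0 < ε ∧ ∀ (q K : ℕ) (g : ℝ → E n → E n) (t₀ : ℝ) (E0 : E n → E q)
    (Ψ : E q → E n) (T S : Fin K → E n → E n) (y : Fin K → E n) (χ : Fin K → E n → ℝ),
    (∀ᶠ w in 𝓝 (t₀, (0 : E n)), ContinuousAt (fun w : ℝ × E n => g w.1 w.2) w) →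
    (∃ ρ : ℝ, 0 < ρ ∧ ∀ᶠ t in 𝓝 t₀, NAff n ε ρ (g t)) →
    (∀ᶠ w in 𝓝 (g t₀ 0), ContDiffAt ℝ ∞ E0 w) →
    (∀ᶠ w in 𝓝 (E0 (g t₀ 0)), ContDiffAt ℝ ∞ Ψ w) →
    (∀ᶠ w in 𝓝 (g t₀ 0), Ψ (E0 w) = w) → (∀ j, Trans n κ (T j) (S j) (y j)) →
    (∀ j, ∀ᶠ z in 𝓝 (0 : E n), ContDiffAt ℝ ∞ (χ j) z ∧ 0 ≤ χ j z) →
    (∀ᶠ z in 𝓝 (0 : E n), ∑ j, χ j z = 1) →
    ∃ ρ c₀ : ℝ, 0 < ρ ∧ 0 < c₀ ∧ ∀ t : ℝ, |t - t₀| < ρ → ∀ z : E n, ‖z‖ < ρ → ∀ c : ℝ, 0 < c →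
      c ≤ c₀ → ContDiffAt ℝ ∞ (Fl n q K (g t) E0 T S χ c) z ∧
      LD n (fun z => Ψ (Fl n q K (g t) E0 T S χ c z)) z

/-- Paths of nearly affine maps whose ends are local diffeomorphisms can be replaced by paths of
local diffeomorphisms which are continuous in the `C¹` topology. -/
def StPath : Prop :=
  ∀ (n : ℕ) (κ : ℝ), ∃ ε : ℝ, 0 < ε ∧ ∀ (X Y : Type) [MetricSpace X] [CompactSpace X]
    [ChartedSpace (E n) X] [IsManifold (𝓡 n) ∞ X] [TopologicalSpace Y] [T2Space Y]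
    [ChartedSpace (E n) Y] [IsManifold (𝓡 n) ∞ Y] (q : ℕ) (e : Y → E q) (π : E q → Y),
    Tub n q Y e π → ∀ f : ℝ → X → Y, Continuous (fun w : ℝ × X => f w.1 w.2) →
    (∀ t x, NAffAtP n κ ε f t x) → (∀ t, t ≤ 1 / 4 → f t = f 0) → (∀ t, 3 / 4 ≤ t → f t = f 1) →
    (∀ x, LD n (f 0) x) → (∀ x, LD n (f 1) x) →
    ∃ G : ℝ → X → E q, (∀ t x, C1At n q G t x) ∧
      (∀ t x, ∀ᶠ w in 𝓝 (G t x), ContMDiffAt (𝓡 q) (𝓡 n) ∞ π w) ∧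
      (∀ t x, LD n (fun x => π (G t x)) x) ∧ (∀ t, t ≤ 0 → ∀ x, G t x = e (f 0 x)) ∧
      ∀ t, 1 ≤ t → ∀ x, G t x = e (f 1 x)

/-- Paths of nearly affine maps between diffeomorphisms can be replaced by smooth isotopies. -/
def StIso : Prop :=
  ∀ (n : ℕ) (κ : ℝ), ∃ ε : ℝ, 0 < ε ∧ ∀ (X Y : Type) [MetricSpace X] [CompactSpace X]
    [ConnectedSpace X] [ChartedSpace (E n) X] [IsManifold (𝓡 n) ∞ X] [TopologicalSpace Y]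
    [T2Space Y] [ChartedSpace (E n) Y] [IsManifold (𝓡 n) ∞ Y] (f : ℝ → X → Y),
    ContinuousOn (fun w : ℝ × X => f w.1 w.2) (Icc (0 : ℝ) 1 ×ˢ univ) →
    (∀ t ∈ Icc (0 : ℝ) 1, ∀ x, NAffAtI n κ ε f t x) →
    Bijective (f 0) → (∀ x, LD n (f 0) x) → (∀ x, LD n (f 1) x) →
    ∃ K : ℝ × X → Y, ContMDiff ((𝓘(ℝ, ℝ)).prod (𝓡 n)) (𝓡 n) ∞ K ∧
      (∀ t, Bijective (fun x => K (t, x))) ∧ (∀ t x, LD n (fun x => K (t, x)) x) ∧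
      (∀ x, K (0, x) = f 0 x) ∧ ∀ x, K (1, x) = f 1 x

/-- Maps to `ℝⁿ` which are local diffeomorphisms off a compact set and nearly affine there. -/
def StNARel : Prop :=
  ∀ (n : ℕ) (κ : ℝ), ∃ ε : ℝ, 0 < ε ∧ ∀ (X : Type) [MetricSpace X] [ChartedSpace (E n) X]
    [IsManifold (𝓡 n) ∞ X] (F : X → E n), Continuous F → IsCompact {x | ¬ LD n F x} →
    (∀ x, ¬ LD n F x → NAffAt n κ ε F x) → ∀ (V : Set (E n)), IsOpen V → (∀ x, F x ∈ V) →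
    ∃ (F' : X → E n) (C : Set X), IsCompact C ∧ Continuous F' ∧ (∀ p, p ∉ C → F' p = F p) ∧
      (∀ p, F' p ∈ V) ∧ ∀ x, LD n F' x

/-- Schoenflies theorem for nearly affine balls. -/
def StSch3 : Prop :=
  ∀ (n : ℕ) (κ : ℝ), ∃ ε : ℝ, 0 < ε ∧ ∀ (H : E n → E n) (δ : ℝ), 0 < δ →
    ContinuousOn H (ball 0 (1 + δ)) → InjOn H (ball 0 (1 + δ)) →
    (∀ x, 1 ≤ ‖x‖ → ‖x‖ < 1 + δ → LD n H x) →
    (∀ x, ‖x‖ < 1 → ¬ LD n H x → NAffAt n κ ε H x) →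
    ∃ (G : E n → E n) (O : E n ≃ₗᵢ[ℝ] E n) (R' : ℝ), Bijective G ∧
      (∀ x, LD n G x) ∧ (∀ x, ‖x‖ = 1 → G x = H x) ∧
      G '' closedBall 0 1 = H '' closedBall 0 1 ∧ ∀ x, R' ≤ ‖x‖ → G x = O x

end Pool.Agent.Y522.NA
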