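import Pool.Agent.Y522.NA.Iso
import Pool.Agent.Y522.NA.GTP
import Pool.Agent.Y678.NA.Path
import Pool.Agent.Y809.NA.LocP
import Pool.Agent.Y273.NA.Jc
import Pool.Agent.Y356.NA.End
import Pool.Agent.Y87.NA.SP
import Pool.Agent.Y391.NA.Tub

/-!
# Isotopies from paths of nearly affine maps
-/

set_option autoImplicit false

open Set Filter Topology Metric Function MeasureTheory
open scoped Manifold ContDiff

noncomputable section

namespace Pool.Agent.Y522.NA

open Pool.Agent.Y522

theorem stLocP : StLocP := Pool.Agent.Y809.NA.locP growP termP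

theorem stPath : StPath := Pool.Agent.Y678.NA.path stLocP Pool.Agent.Y273.NA.jc Pool.Agent.Y356.NA.stEnd

theorem stIso : StIso := iso stPath Pool.Agent.Y87.NP.sp Pool.Agent.Y391.NA.tub

end Pool.Agent.Y522.NA
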