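import Pool.Agent.Y522.NA.FinT
import Pool.Agent.Y901.TP.Punc
import Pool.Agent.Y672.TP.SB
import Pool.Agent.Y927.TP.Ch

/-!
# Project TP: everything together
-/

set_option autoImplicit false

open Set Filter Topology Metric Function MeasureTheory
open scoped Manifold ContDiff

noncomputable section

namespace Pool.Agent.Y522.TP

open Pool.Agent.Y522

/-- Closed manifolds related by maps which are diffeomorphisms off a set of zero length become
diffeomorphic after removing one point. -/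
theorem final (m : ℕ) (X Y : Type)
    [TopologicalSpace X] [T2Space X] [CompactSpace X]
    [ChartedSpace (E (m + 1)) X] [IsManifold (𝓡 (m + 1)) ∞ X]
    [TopologicalSpace Y] [T2Space Y] [CompactSpace Y] [ConnectedSpace Y]
    [ChartedSpace (E (m + 1)) Y] [IsManifold (𝓡 (m + 1)) ∞ Y]
    (f : X → Y) (S : Set Y) (hf : Continuous f) (hS : IsClosed S) (h0 : ZeroLen (m + 1) S)
    (h1 : ∀ y, y ∉ S → ∃! x, f x = y) (h2 : ∀ x, f x ∉ S → LD (m + 1) f x)
    (h3 : ∀ y ∈ S, Emb (m + 1) (f ⁻¹' {y})) :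
    ∃ (g : X ≃ₜ Y) (x₀ : X), ∀ x, x ≠ x₀ → LD (m + 1) g x :=
  final_of (Pool.Agent.Y672.TP.sb Pool.Agent.Y901.TP.punc) Pool.Agent.Y927.TP.ch
    m X Y f S hf hS h0 h1 h2 h3

end Pool.Agent.Y522.TP
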