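import Pool.Agent.Y522.NA.StmC
import Mathlib.Analysis.SpecialFunctions.SmoothTransition

/-!
# Project CI: the final statement, for paths parametrized by the unit interval
-/

set_option autoImplicit false

open Set Filter Topology Metric Function
open scoped Manifold ContDiff

noncomputable section

namespace Pool.Agent.Y522.NA

open Pool.Agent.Y522

theorem coi_unit (h : StCOI) (m : ℕ) (X Y : Type) [TopologicalSpace X] [T2Space X] [CompactSpace X]
    [ChartedSpace (E (m + 1)) X] [IsManifold (𝓡 (m + 1)) ∞ X] [TopologicalSpace Y] [T2Space Y]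
    [ChartedSpace (E (m + 1)) Y] [IsManifold (𝓡 (m + 1)) ∞ Y] (f : ℝ × X → Y)
    (hf : ContMDiff ((𝓘(ℝ, ℝ)).prod (𝓡 (m + 1))) (𝓡 (m + 1)) ∞ f)
    (hb : ∀ t ∈ Icc (0 : ℝ) 1, Bijective (fun x => f (t, x)))
    (hr : ∀ t ∈ Icc (0 : ℝ) 1, ∀ x, m ≤ Module.finrank ℝ
      (LinearMap.range (mfderiv (𝓡 (m + 1)) (𝓡 (m + 1)) (fun x => f (t, x)) x).toLinearMap))
    (h0 : ∀ x, LD (m + 1) (fun x => f (0, x)) x) (h1 : ∀ x, LD (m + 1) (fun x => f (1, x)) x) :
    ∃ K : ℝ × X → Y, ContMDiff ((𝓘(ℝ, ℝ)).prod (𝓡 (m + 1))) (𝓡 (m + 1)) ∞ K ∧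
      (∀ t, Bijective (fun x => K (t, x))) ∧ (∀ t x, LD (m + 1) (fun x => K (t, x)) x) ∧
      (∀ x, K (0, x) = f (0, x)) ∧ ∀ x, K (1, x) = f (1, x) := by
  have hθ : ∀ t, Real.smoothTransition t ∈ Icc (0 : ℝ) 1 := fun t =>
    ⟨Real.smoothTransition.nonneg t, Real.smoothTransition.le_one t⟩
  have e0 : Real.smoothTransition 0 = 0 := Real.smoothTransition.zero
  have e1 : Real.smoothTransition 1 = 1 := Real.smoothTransition.one
  have hg : ContMDiff ((𝓘(ℝ, ℝ)).prod (𝓡 (m + 1))) ((𝓘(ℝ, ℝ)).prod (𝓡 (m + 1))) ∞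
      (fun w : ℝ × X => (Real.smoothTransition w.1, w.2)) := by
    have h2 : ContMDiff 𝓘(ℝ, ℝ) 𝓘(ℝ, ℝ) ∞ Real.smoothTransition :=
      (Real.smoothTransition.contDiff (n := (⊤ : ℕ∞))).contMDiff
    exact (h2.comp contMDiff_fst).prodMk contMDiff_snd
  obtain ⟨K, k1, k2, k3, k4, k5⟩ := h m X Y (fun w => f (Real.smoothTransition w.1, w.2))
    (hf.comp hg) (fun t => hb _ (hθ t)) (fun t x => hr _ (hθ t) x)
    (by simpa only [e0] using h0) (by simpa only [e1] using h1)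
  refine ⟨K, k1, k2, k3, fun x => ?_, fun x => ?_⟩
  · rw [k4 x]
    simp only [e0]
  · rw [k5 x]
    simp only [e1]

end Pool.Agent.Y522.NA
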