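import Pool.Agent.Y522.NA.TP
import Pool.Agent.Y496.SH.D4

/-!
# Project TP: the final statement from its parts
-/

set_option autoImplicit false

open Set Filter Topology Metric Function MeasureTheory
open scoped Manifold ContDiff

noncomputable section

namespace Pool.Agent.Y522.TP

open Pool.Agent.Y522

theorem final_of (hB : StSB) (hC : StCh) (m : ℕ) (X Y : Type)
    [TopologicalSpace X] [T2Space X] [CompactSpace X]
    [ChartedSpace (E (m + 1)) X] [IsManifold (𝓡 (m + 1)) ∞ X]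
    [TopologicalSpace Y] [T2Space Y] [CompactSpace Y] [ConnectedSpace Y]
    [ChartedSpace (E (m + 1)) Y] [IsManifold (𝓡 (m + 1)) ∞ Y]
    (f : X → Y) (S : Set Y) (hf : Continuous f) (hS : IsClosed S) (h0 : ZeroLen (m + 1) S)
    (h1 : ∀ y, y ∉ S → ∃! x, f x = y) (h2 : ∀ x, f x ∉ S → LD (m + 1) f x)
    (h3 : ∀ y ∈ S, Emb (m + 1) (f ⁻¹' {y})) :
    ∃ (g : X ≃ₜ Y) (x₀ : X), ∀ x, x ≠ x₀ → LD (m + 1) g x := by
  refine tp hB hC m X Y f S ⟨hf, hS, h1, h2, fun y => ?_⟩ h0
  by_cases hy : y ∈ S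
  · exact h3 y hy
  · obtain ⟨x, hx, hu⟩ := h1 y hy
    have e : f ⁻¹' {y} = {x} := by
      ext z
      constructor
      · intro hz
        exact hu z hz
      · intro hz
        rw [mem_singleton_iff.1 hz]
        exact hx
    rw [e]
    exact Pool.Agent.Y496.SH.emb_point x

end Pool.Agent.Y522.TP
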