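import Pool.Agent.Y522.NA.StmP
import Pool.Agent.Y66.CM.Final

/-!
# Isotopies from paths of nearly affine maps: assembly
-/

set_option autoImplicit false

open Set Filter Topology Metric Function MeasureTheory
open scoped Manifold ContDiff

noncomputable section

namespace Pool.Agent.Y522.NA

open Pool.Agent.Y522

/-- the reparametrization of time -/
def sg (t : ℝ) : ℝ := max 0 (min 1 (2 * t - 1 / 2))

theorem sg_cont : Continuous sg := by unfold sg; fun_prop

theorem sg_mem (t : ℝ) : sg t ∈ Icc (0 : ℝ) 1 :=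
  ⟨le_max_left _ _, max_le zero_le_one (min_le_left _ _)⟩

theorem sg_zero {t : ℝ} (h : t ≤ 1 / 4) : sg t = 0 := by
  unfold sg
  rw [max_eq_left]
  exact (min_le_right _ _).trans (by linarith)

theorem sg_one {t : ℝ} (h : 3 / 4 ≤ t) : sg t = 1 := by
  unfold sg
  rw [min_eq_left (by linarith), max_eq_right zero_le_one]

theorem sg_lip (t t' : ℝ) : |sg t' - sg t| ≤ 2 * |t' - t| := by
  unfold sg
  have h1 := abs_max_sub_max_le_abs (min 1 (2 * t' - 1 / 2)) (min 1 (2 * t - 1 / 2)) (0 : ℝ)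
  have h2 := abs_min_sub_min_le_max (1 : ℝ) (2 * t' - 1 / 2) 1 (2 * t - 1 / 2)
  rw [max_comm 0, max_comm 0]
  refine h1.trans (h2.trans ?_)
  rw [sub_self, abs_zero, max_eq_right (abs_nonneg _)]
  have h3 : 2 * t' - 1 / 2 - (2 * t - 1 / 2) = 2 * (t' - t) := by ring
  rw [h3, abs_mul, abs_two]

theorem iso (hP : StPath) (hS : StSP) (hT : StTub) : StIso := by
  intro n κ
  obtain ⟨ε, hε, h⟩ := hP n κ
  refine ⟨ε, hε, fun X Y _ _ _ _ _ _ _ _ _ f hf hN hb h0 h1 => ?_⟩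
  have hft : ∀ t ∈ Icc (0 : ℝ) 1, Continuous (f t) := by
    intro t ht
    have h2 : Continuous (fun x : X => (t, x)) := by fun_prop
    exact hf.comp_continuous h2 (fun x => ⟨ht, mem_univ _⟩)
  have hf0 : Continuous (f 0) := hft 0 ⟨le_rfl, zero_le_one⟩
  haveI : CompactSpace Y := by
    refine ⟨?_⟩
    rw [← hb.2.range_eq, ← image_univ]
    exact isCompact_univ.image hf0
  obtain ⟨x0⟩ : Nonempty X := inferInstance
  haveI : Nonempty Y := ⟨f 0 x0⟩
  obtain ⟨q, e, π, ht⟩ := hT n Y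
  have c1 : Continuous (fun w : ℝ × X => f (sg w.1) w.2) := by
    have h2 : Continuous (fun w : ℝ × X => (sg w.1, w.2)) :=
      (sg_cont.comp continuous_fst).prodMk continuous_snd
    exact hf.comp_continuous h2 (fun w => ⟨sg_mem _, mem_univ _⟩)
  have c2 : ∀ t x, NAffAtP n κ ε (fun t => f (sg t)) t x := by
    intro t x
    obtain ⟨A, B, hA, hAL, hBL, ρ, hρ, hA', hg⟩ := hN (sg t) (sg_mem t) x
    refine ⟨A, B, hA, hAL, hBL, ρ / 2, by positivity, fun p q hp hq =>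
      hA' p q (by linarith) (by linarith), fun t' ht' => ?_⟩
    have h2 : |sg t' - sg t| < ρ := (sg_lip t t').trans_lt (by linarith)
    intro p hp r hr hr'
    exact hg (sg t') (sg_mem t') h2 p (by linarith) r hr (by linarith)
  have c3 : ∀ t, t ≤ 1 / 4 → f (sg t) = f (sg 0) := by
    intro t ht'
    rw [sg_zero ht', sg_zero (by norm_num)]
  have c4 : ∀ t, 3 / 4 ≤ t → f (sg t) = f (sg 1) := by
    intro t ht'
    rw [sg_one ht', sg_one (by norm_num)]
  have s0 : sg 0 = 0 := sg_zero (by norm_num)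
  have s1 : sg 1 = 1 := sg_one (by norm_num)
  have c5 : ∀ x, LD n (f (sg 0)) x := by
    intro x
    rw [s0]
    exact h0 x
  have c6 : ∀ x, LD n (f (sg 1)) x := by
    intro x
    rw [s1]
    exact h1 x
  obtain ⟨G, g1, g2, g3, g4, g5⟩ := h X Y q e π ht (fun t => f (sg t)) c1 c2 c3 c4 c5 c6
  simp only [s0, s1] at g4 g5
  obtain ⟨K, k1, k2, k3, k4⟩ := hS n q X Y π G g1 g2 g3
  have hK0 : ∀ x, K (0, x) = f 0 x := by
    intro x
    rw [k3 0 x le_rfl, g4 0 le_rfl x, ht.inv]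
  have hK1 : ∀ x, K (1, x) = f 1 x := by
    intro x
    rw [k4 1 x le_rfl, g5 1 le_rfl x, ht.inv]
  refine ⟨K, k1, fun t => ?_, k2, hK0, hK1⟩
  obtain ⟨φ, hφ⟩ : ∃ φ : X ≃ₜ Y, ∀ x, φ x = f 0 x :=
    ⟨(Equiv.ofBijective (f 0) hb).toHomeomorphOfIsInducing
      (hf0.isClosedEmbedding hb.1).isInducing, fun x => rfl⟩
  have hKc : Continuous K := k1.continuous
  have hKt : Continuous (fun x => K (t, x)) := hKc.comp (by fun_prop)
  refine Pool.Agent.Y66.CM.bijective_of_homotopic (f := ⟨fun x => K (t, x), hKt⟩) (k2 t)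
    (φ.symm : C(Y, X)) ?_
  refine ⟨⟨⟨fun w : unitInterval × Y => K ((1 - (w.1 : ℝ)) * t, φ.symm w.2), ?_⟩, fun y => ?_,
    fun y => ?_⟩⟩
  · refine hKc.comp (Continuous.prodMk (by fun_prop) (φ.symm.continuous.comp continuous_snd))
  · simp
  · simp [hK0, ← hφ]

end Pool.Agent.Y522.NA
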