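import Pool.Agent.Y522.NA.Stm
import Pool.Agent.Y66.CM.Final

/-!
# Nearly affine maps between closed manifolds: the main theorem from its parts
-/

set_option autoImplicit false

open Set Filter Topology Metric Function MeasureTheory
open scoped Manifold ContDiff

noncomputable section

namespace Pool.Agent.Y522.NA

open Pool.Agent.Y522

theorem main_of (hN : StNA) (hT : StTub) (n : ℕ) (κ : ℝ) : ∃ ε : ℝ, 0 < ε ∧
    ∀ (X Y : Type) [MetricSpace X] [CompactSpace X]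
      [ChartedSpace (E n) X] [IsManifold (𝓡 n) ∞ X] [TopologicalSpace Y] [T2Space Y]
      [CompactSpace Y] [ChartedSpace (E n) Y] [IsManifold (𝓡 n) ∞ Y] (f : C(X, Y)),
      (∀ x, NAffAt n κ ε f x) → ∀ O : Set (X × Y), IsOpen O → (∀ x, (x, f x) ∈ O) →
      ∃ f' : C(X, Y), ContinuousMap.HomotopicWith f f' (fun g => ∀ x, (x, g x) ∈ O) ∧
        IsLocalDiffeomorph (𝓡 n) (𝓡 n) ∞ f' ∧
        (ConnectedSpace X → (SimplyConnectedSpace Y ∨ ∃ g : C(Y, X),
          (f.comp g).Homotopic (ContinuousMap.id Y)) →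
          ∃ Φ : X ≃ₘ^∞⟮𝓡 n, 𝓡 n⟯ Y, ⇑Φ = ⇑f') := by
  obtain ⟨ε, hε, h⟩ := hN n κ
  refine ⟨ε, hε, fun X Y _ _ _ _ _ _ _ _ _ f hf O hO hfO => ?_⟩
  rcases isEmpty_or_nonempty X with hX | hX
  · refine ⟨f, ContinuousMap.HomotopicWith.refl f hfO, fun x => (hX.false x).elim,
      fun hc => ?_⟩
    obtain ⟨x⟩ := hc.toNonempty
    exact (hX.false x).elim
  · obtain ⟨x0⟩ := hX
    haveI : Nonempty Y := ⟨f x0⟩
    obtain ⟨q, e, π, ht⟩ := hT n Y
    obtain ⟨f', h1, h2⟩ := h X Y q e π ht f hf O hO hfO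
    refine ⟨f', h1, h2, fun hX hY => ?_⟩
    have hl : IsLocalDiffeomorph (𝓡 n) (𝓡 n) ∞ f' := h2
    have hb : Bijective f' := by
      rcases hY with hY | ⟨g, hg⟩
      · exact Pool.Agent.Y66.CM.bijective_of_simply h2
      · obtain ⟨H⟩ := h1
        have h3 : f'.Homotopic f := ⟨H.toHomotopy.symm⟩
        exact Pool.Agent.Y66.CM.bijective_of_homotopic h2 g
          ((h3.comp (ContinuousMap.Homotopic.refl g)).trans hg)
    exact ⟨hl.diffeomorphOfBijective hb, rfl⟩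

end Pool.Agent.Y522.NA
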