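import Pool.Agent.Y66.CM.Defs

/-!
# Project NA: nearly affine maps between closed manifolds (statements)

A map is nearly affine if at all small scales it is affine up to a small relative error.
-/

set_option autoImplicit false

open Set Filter Topology Metric Function MeasureTheory
open scoped Manifold ContDiff

noncomputable section

namespace Pool.Agent.Y522.NA

open Pool.Agent.Y522

/-- `L` approximates `g` on the ball of radius `r` about `p` with relative error `ε`. -/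
def Apx (n : ℕ) (ε : ℝ) (g : E n → E n) (p : E n) (r : ℝ) (L : E n ≃L[ℝ] E n) : Prop :=
  ∀ v : E n, ‖v‖ ≤ r → ‖L.symm (g (p + v) - g p) - v‖ ≤ ε * r

/-- `g` is nearly affine with error `ε` at all scales below `ρ` and all points of the `ρ`-ball -/
def NAff (n : ℕ) (ε ρ : ℝ) (g : E n → E n) : Prop :=
  ∀ p : E n, ‖p‖ < ρ → ∀ r : ℝ, 0 < r → r < ρ → ∃ L : E n ≃L[ℝ] E n, Apx n ε g p r L

section

variable (n : ℕ) {X Y : Type} [MetricSpace X] [ChartedSpace (E n) X] [TopologicalSpace Y]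
  [ChartedSpace (E n) Y]

/-- `A` is bi-Lipschitz with constant `κ` on the `ρ`-ball -/
def BLip (κ ρ : ℝ) (A : E n → X) : Prop :=
  ∀ p q : E n, ‖p‖ < ρ → ‖q‖ < ρ →
    ‖p - q‖ ≤ κ * dist (A p) (A q) ∧ dist (A p) (A q) ≤ κ * ‖p - q‖

/-- `f` is nearly affine at `x` -/
def NAffAt (κ ε : ℝ) (f : X → Y) (x : X) : Prop :=
  ∃ (A : E n → X) (B : Y → E n), A 0 = x ∧ LD n A 0 ∧ LD n B (f x) ∧
    ∃ ρ : ℝ, 0 < ρ ∧ BLip n κ ρ A ∧ NAff n ε ρ (fun z => B (f (A z)))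

end

/-- tubular data: an embedding of `Y` into `ℝ^q` with a smooth retraction of a neighbourhood -/
structure Tub (n q : ℕ) (Y : Type) [TopologicalSpace Y] [ChartedSpace (E n) Y]
    (e : Y → E q) (π : E q → Y) : Prop where
  smooth : ContMDiff (𝓡 n) (𝓡 q) ∞ e
  retr : ∀ y, ∀ᶠ w in 𝓝 (e y), ContMDiffAt (𝓡 q) (𝓡 n) ∞ π w
  inv : ∀ y, π (e y) = y

/-- Nonempty compact manifolds have tubular data. -/
def StTub : Prop :=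
  ∀ (n : ℕ) (Y : Type) [TopologicalSpace Y] [T2Space Y] [CompactSpace Y] [ChartedSpace (E n) Y]
    [IsManifold (𝓡 n) ∞ Y] [Nonempty Y], ∃ (q : ℕ) (e : Y → E q) (π : E q → Y), Tub n q Y e π

/-- The approximating linear maps degenerate slowly. -/
def StGrow : Prop :=
  ∀ n : ℕ, ∃ ε₁ : ℝ, 0 < ε₁ ∧ ∀ (g : E n → E n) (ρ : ℝ), 0 < ρ → ContinuousOn g (ball 0 ρ) →
    NAff n ε₁ ρ g → ∀ η : ℝ, 0 < η → ∃ ρ' c₀ : ℝ, 0 < ρ' ∧ 0 < c₀ ∧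
    ∀ p : E n, ‖p‖ < ρ' → ∀ c : ℝ, 0 < c → c ≤ c₀ → ∀ L : E n ≃L[ℝ] E n, Apx n ε₁ g p c L →
      ‖(L.symm : E n →L[ℝ] E n)‖ * ‖(L : E n →L[ℝ] E n)‖ ^ 2 * c ≤ η ∧
      ‖(L : E n →L[ℝ] E n)‖ * c ≤ η

/-- Two local coordinate changes which are inverse to each other and `κ`-Lipschitz: `T` near `0`,
`S` near `y = T 0`. -/
structure Trans (n : ℕ) (κ : ℝ) (T S : E n → E n) (y : E n) : Prop where
  pt : T 0 = y
  ldT : LD n T 0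
  ldS : LD n S y
  inv : ∀ᶠ z in 𝓝 (0 : E n), S (T z) = z
  inv' : ∀ᶠ w in 𝓝 y, T (S w) = w
  lipT : ∀ᶠ z in 𝓝 (0 : E n), ∀ᶠ z' in 𝓝 z, ‖T z' - T z‖ ≤ κ * ‖z' - z‖
  lipS : ∀ᶠ w in 𝓝 y, ∀ᶠ w' in 𝓝 w, ‖S w' - S w‖ ≤ κ * ‖w' - w‖

/-- the mollification in another coordinate system -/
def Term (n q : ℕ) (g : E n → E n) (E0 : E n → E q) (T S : E n → E n) (c : ℝ) (z : E n) : E q :=
  ∫ s, kr n s • E0 (g (S (T z + c • s)))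

/-- Derivative of one term. -/
def StTerm : Prop :=
  ∀ (n : ℕ) (κ : ℝ), ∃ C : ℝ, 0 < C ∧ ∀ (q : ℕ) (g : E n → E n) (E0 : E n → E q)
    (T S : E n → E n) (y : E n), (∀ᶠ z in 𝓝 (0 : E n), ContinuousAt g z) →
    (∀ᶠ w in 𝓝 (g 0), ContDiffAt ℝ ∞ E0 w) → Trans n κ T S y →
    ∀ δ : ℝ, 0 < δ → ∃ ρ c₀ C' : ℝ, 0 < ρ ∧ 0 < c₀ ∧ ∀ z : E n, ‖z‖ < ρ → ∀ c : ℝ, 0 < c →
      c ≤ c₀ → ContDiffAt ℝ ∞ (Term n q g E0 T S c) z ∧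
      ∀ (L : E n ≃L[ℝ] E n) (ε : ℝ), 0 ≤ ε → ε ≤ 1 →
        Apx n ε g z (2 * |κ| * c) L →
        (∃ (η : E n) (ξ : E q), Term n q g E0 T S c z - E0 (g z) =
            fderiv ℝ E0 (g z) (L η) + ξ ∧ ‖η‖ ≤ C * c ∧
            ‖ξ‖ ≤ C' * (‖(L : E n →L[ℝ] E n)‖ * c) ^ 2) ∧
        ∀ u : E n, ∃ (η : E n) (ξ : E q), fderiv ℝ (Term n q g E0 T S c) z u =
            fderiv ℝ E0 (g z) (L (u + η)) + ξ ∧ ‖η‖ ≤ C * (ε + δ) * ‖u‖ ∧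
            ‖ξ‖ ≤ C' * ‖(L : E n →L[ℝ] E n)‖ ^ 2 * c * ‖u‖

/-- The blended mollification -/
def Fl (n q K : ℕ) (g : E n → E n) (E0 : E n → E q) (T S : Fin K → E n → E n)
    (χ : Fin K → E n → ℝ) (c : ℝ) (z : E n) : E q :=
  ∑ j, χ j z • Term n q g E0 (T j) (S j) c z

/-- The local theorem: the blended mollification followed by the retraction is a local
diffeomorphism. -/
def StLoc : Prop :=
  ∀ (n : ℕ) (κ : ℝ), ∃ ε : ℝ, 0 < ε ∧ ∀ (q K : ℕ) (g : E n → E n) (E0 : E n → E q)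
    (Ψ : E q → E n) (T S : Fin K → E n → E n) (y : Fin K → E n) (χ : Fin K → E n → ℝ),
    (∀ᶠ z in 𝓝 (0 : E n), ContinuousAt g z) → (∃ ρ : ℝ, 0 < ρ ∧ NAff n ε ρ g) →
    (∀ᶠ w in 𝓝 (g 0), ContDiffAt ℝ ∞ E0 w) → (∀ᶠ w in 𝓝 (E0 (g 0)), ContDiffAt ℝ ∞ Ψ w) →
    (∀ᶠ w in 𝓝 (g 0), Ψ (E0 w) = w) → (∀ j, Trans n κ (T j) (S j) (y j)) →
    (∀ j, ∀ᶠ z in 𝓝 (0 : E n), ContDiffAt ℝ ∞ (χ j) z ∧ 0 ≤ χ j z) →
    (∀ᶠ z in 𝓝 (0 : E n), ∑ j, χ j z = 1) →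
    ∃ ρ c₀ : ℝ, 0 < ρ ∧ 0 < c₀ ∧ ∀ z : E n, ‖z‖ < ρ → ∀ c : ℝ, 0 < c → c ≤ c₀ →
      ContDiffAt ℝ ∞ (Fl n q K g E0 T S χ c) z ∧
      LD n (fun z => Ψ (Fl n q K g E0 T S χ c z)) z

/-- Nearly affine maps of compact manifolds are homotopic, near their graphs, to local
diffeomorphisms. -/
def StNA : Prop :=
  ∀ (n : ℕ) (κ : ℝ), ∃ ε : ℝ, 0 < ε ∧ ∀ (X Y : Type) [MetricSpace X] [CompactSpace X]
    [ChartedSpace (E n) X] [IsManifold (𝓡 n) ∞ X] [TopologicalSpace Y] [T2Space Y]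
    [ChartedSpace (E n) Y] [IsManifold (𝓡 n) ∞ Y] (q : ℕ) (e : Y → E q) (π : E q → Y),
    Tub n q Y e π → ∀ f : C(X, Y), (∀ x, NAffAt n κ ε f x) →
    ∀ O : Set (X × Y), IsOpen O → (∀ x, (x, f x) ∈ O) →
    ∃ f' : C(X, Y), Pool.Agent.Y66.CM.HomIn O f f' ∧ ∀ x, LD n f' x

end Pool.Agent.Y522.NA
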