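import Pool.Agent.Y66.CM.Defs
import Pool.Agent.Y522.Stm5

/-!
# Project CO: smooth homeomorphisms of corank at most one between closed manifolds (statements)
-/

set_option autoImplicit false

open Set Filter Topology Metric Function MeasureTheory
open scoped Manifold ContDiff

noncomputable section

namespace Pool.Agent.Y522.NA

open Pool.Agent.Y522

/-- Smooth homeomorphisms of corank at most one between compact manifolds are homotopic, near
their graphs, to diffeomorphisms. -/
def StCO : Prop :=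
  ∀ (m : ℕ) (X Y : Type) [TopologicalSpace X] [T2Space X] [CompactSpace X]
    [ChartedSpace (E (m + 1)) X] [IsManifold (𝓡 (m + 1)) ∞ X] [TopologicalSpace Y] [T2Space Y]
    [ChartedSpace (E (m + 1)) Y] [IsManifold (𝓡 (m + 1)) ∞ Y] (f : X → Y),
    ContMDiff (𝓡 (m + 1)) (𝓡 (m + 1)) ∞ f → Bijective f →
    (∀ x, m ≤ Module.finrank ℝ
      (LinearMap.range (mfderiv (𝓡 (m + 1)) (𝓡 (m + 1)) f x).toLinearMap)) →
    ∀ O : Set (X × Y), IsOpen O → (∀ x, (x, f x) ∈ O) →
    ∃ f' : X → Y, (∀ x, (x, f' x) ∈ O) ∧ Bijective f' ∧ ∀ x, LD (m + 1) f' x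

end Pool.Agent.Y522.NA
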