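import Pool.Agent.Y522.Thin

/-!
# Project TP: maps of closed manifolds which are diffeomorphisms off a set of zero length
-/

set_option autoImplicit false

open Set Filter Topology Metric Function MeasureTheory
open scoped Manifold ContDiff

noncomputable section

namespace Pool.Agent.Y522.TP

open Pool.Agent.Y522

/-- Diffeomorphism germs at infinity extend to homeomorphisms which are diffeomorphisms off the
origin. -/
def StPunc : Prop :=
  ∀ (n : ℕ) (k : E n → E n) (a ε b : ℝ), 0 < a → 0 < ε → (∀ x, a ≤ ‖x‖ → LD n k x) →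
    InjOn k {x | a ≤ ‖x‖} → (∀ R : ℝ, ∃ r : ℝ, ∀ x, r ≤ ‖x‖ → R ≤ ‖k x‖) →
    (∀ x, a ≤ ‖x‖ → ε ≤ ‖k x‖) → (∀ y, b ≤ ‖y‖ → ∃ x, a ≤ ‖x‖ ∧ k x = y) →
    ∃ (g : E n ≃ₜ E n) (a' : ℝ), g 0 = 0 ∧ (∀ x, x ≠ 0 → LD n g x) ∧ a ≤ a' ∧
      ∀ x, a' ≤ ‖x‖ → g x = k x

section

variable (n : ℕ) {X Y : Type} [TopologicalSpace X] [ChartedSpace (E n) X] [TopologicalSpace Y]
  [ChartedSpace (E n) Y]

/-- `f` is a local diffeomorphism and one-to-one over the complement of the closed set `S`, and its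
fibres have neighbourhoods which embed in `ℝ^n`. -/
structure TM (f : X → Y) (S : Set Y) : Prop where
  cont : Continuous f
  closed : IsClosed S
  bij : ∀ y, y ∉ S → ∃! x, f x = y
  ld : ∀ x, f x ∉ S → LD n f x
  fib : ∀ y, Emb n (f ⁻¹' {y})

/-- `S` has zero length in all coordinates -/
def ZeroLen (S : Set Y) : Prop :=
  ∀ c : E n → Y, Injective c → (∀ z, LD n c z) → μH[1] (c ⁻¹' S) = 0

end

/-- Modification over one coordinate ball. -/
def StSB : Prop :=
  ∀ (m : ℕ) (X Y : Type) [TopologicalSpace X] [T2Space X] [CompactSpace X]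
    [ChartedSpace (E (m + 1)) X] [IsManifold (𝓡 (m + 1)) ∞ X] [TopologicalSpace Y] [T2Space Y]
    [ChartedSpace (E (m + 1)) Y] [IsManifold (𝓡 (m + 1)) ∞ Y] (f : X → Y) (S : Set Y),
    TM (m + 1) f S → ∀ c : E (m + 1) → Y, Injective c → (∀ z, LD (m + 1) c z) →
    IsCompact (c ⁻¹' S) → μH[1] (c ⁻¹' S) = 0 → ∀ p : E (m + 1),
    ∃ f' : X → Y, TM (m + 1) f' ((S \ range c) ∪ {c p}) ∧ ∃! x, f' x = c p

/-- Coordinate balls whose boundary misses a set of zero length. -/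
def StCh : Prop :=
  ∀ (m : ℕ) (Y : Type) [TopologicalSpace Y] [T2Space Y] [ChartedSpace (E (m + 1)) Y]
    [IsManifold (𝓡 (m + 1)) ∞ Y] (S : Set Y), IsClosed S → ZeroLen (m + 1) S → ∀ y : Y,
    ∃ c : E (m + 1) → Y, Injective c ∧ (∀ z, LD (m + 1) c z) ∧ y ∈ range c ∧
      IsCompact (c ⁻¹' S)

/-- Maps of closed connected manifolds which are diffeomorphisms off a set of zero length, with
embeddable fibres, can be replaced by homeomorphisms which are diffeomorphisms off one point. -/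
def StTP : Prop :=
  ∀ (m : ℕ) (X Y : Type) [TopologicalSpace X] [T2Space X] [CompactSpace X]
    [ChartedSpace (E (m + 1)) X] [IsManifold (𝓡 (m + 1)) ∞ X] [TopologicalSpace Y] [T2Space Y]
    [CompactSpace Y] [ConnectedSpace Y]
    [ChartedSpace (E (m + 1)) Y] [IsManifold (𝓡 (m + 1)) ∞ Y] (f : X → Y) (S : Set Y),
    TM (m + 1) f S → ZeroLen (m + 1) S →
    ∃ (g : X ≃ₜ Y) (x₀ : X), ∀ x, x ≠ x₀ → LD (m + 1) g x

end Pool.Agent.Y522.TP
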