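import Pool.Agent.Y522.NA.StmT

/-!
# Project TP: assembly
-/

set_option autoImplicit false

open Set Filter Topology Metric Function MeasureTheory
open scoped Manifold ContDiff

noncomputable section

namespace Pool.Agent.Y522.TP

open Pool.Agent.Y522

theorem isOpen_range_of_LD {n : ℕ} {Y : Type} [TopologicalSpace Y] [ChartedSpace (E n) Y]
    {c : E n → Y} (h : ∀ z, LD n c z) : IsOpen (range c) := by
  have hl : IsLocalDiffeomorph (𝓡 n) (𝓡 n) ∞ c := h
  exact hl.isLocalHomeomorph.isOpenMap.isOpen_range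

theorem tp (hB : StSB) (hC : StCh) : StTP := by
  classical
  intro m X Y _ _ _ _ _ _ _ _ _ _ _ f S hf hS
  choose c hc1 hc2 hc3 hc4 using hC m Y S hf.closed hS
  have hcc : ∀ y, Continuous (c y) := fun y =>
    continuous_iff_continuousAt.2 fun z => (hc2 y z).continuousAt
  have hopen : ∀ y, IsOpen (range (c y)) := fun y => isOpen_range_of_LD (hc2 y)
  obtain ⟨t, ht⟩ := isCompact_univ.elim_finite_subcover (fun y => range (c y)) hopen
    (fun y _ => mem_iUnion.2 ⟨y, hc3 y⟩)
  have hcov : ∀ q : Y, ∃ i ∈ t, q ∈ range (c i) := by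
    intro q
    have := ht (mem_univ q)
    simp only [mem_iUnion] at this
    obtain ⟨i, hi, hq⟩ := this
    exact ⟨i, hi, hq⟩
  -- the step
  have hstep : ∀ (T : Set Y) (q : Y) (f' : X → Y), T ⊆ S → (∀ i, IsCompact (c i ⁻¹' T)) →
      TM (m + 1) f' (T ∪ {q}) → ∀ (i : Y) (p : E (m + 1)),
      ∃ f'' : X → Y, TM (m + 1) f'' (((T ∪ {q}) \ range (c i)) ∪ {c i p}) ∧
        ∃! x, f'' x = c i p := by
    intro T q f' hT hTc hf' i p
    have hfin : (c i ⁻¹' {q}).Finite :=
      (finite_singleton q).preimage (hc1 i).injOn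
    refine hB m X Y f' (T ∪ {q}) hf' (c i) (hc1 i) (hc2 i) ?_ ?_ p
    · rw [preimage_union]
      exact (hTc i).union hfin.isCompact
    · rw [preimage_union]
      refine measure_union_null ?_ ?_
      · exact measure_mono_null (preimage_mono hT) (hS (c i) (hc1 i) (hc2 i))
      · haveI := MeasureTheory.Measure.nullSingletonClass_hausdorff (E (m + 1))
          (show (0 : ℝ) < 1 from one_pos)
        exact hfin.measure_zero _
  have main : ∀ (N : ℕ) (T : Set Y) (q : Y) (f' : X → Y), T ⊆ S → (∀ i, IsCompact (c i ⁻¹' T)) →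
      TM (m + 1) f' (T ∪ {q}) → (t.filter fun i => (T ∩ range (c i)).Nonempty).card ≤ N →
      ∃ (f'' : X → Y) (q' : Y), TM (m + 1) f'' {q'} ∧ ∃! x, f'' x = q' := by
    intro N
    induction N with
    | zero =>
      intro T q f' hT hTc hf' hN
      have hTe : T = ∅ := by
        by_contra hne
        obtain ⟨z, hz⟩ := nonempty_iff_ne_empty.2 hne
        obtain ⟨i, hi, hzi⟩ := hcov z
        have h1 : i ∈ t.filter fun i => (T ∩ range (c i)).Nonempty :=
          Finset.mem_filter.2 ⟨hi, ⟨z, hz, hzi⟩⟩
        have h2 := Finset.card_pos.2 ⟨i, h1⟩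
        omega
      obtain ⟨i, hi, hqi⟩ := hcov q
      obtain ⟨f'', h1, h2⟩ := hstep T q f' hT hTc hf' i 0
      refine ⟨f'', c i 0, ?_, h2⟩
      have e : ((T ∪ {q}) \ range (c i)) ∪ {c i 0} = {c i 0} := by
        rw [hTe, empty_union]
        have : ({q} : Set Y) \ range (c i) = ∅ := by
          rw [diff_eq_empty]
          exact singleton_subset_iff.2 hqi
        rw [this, empty_union]
      rwa [e] at h1
    | succ N ih =>
      intro T q f' hT hTc hf' hN
      by_cases hex : ∃ (q₁ : Y) (f₁ : X → Y) (i : Y), TM (m + 1) f₁ (T ∪ {q₁}) ∧ i ∈ t ∧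
          q₁ ∈ range (c i) ∧ (T ∩ range (c i)).Nonempty
      · obtain ⟨q₁, f₁, i, hf₁, hi, hqi, hne⟩ := hex
        obtain ⟨f'', h1, -⟩ := hstep T q₁ f₁ hT hTc hf₁ i 0
        have e : (T ∪ {q₁}) \ range (c i) = T \ range (c i) := by
          rw [union_diff_distrib]
          have : ({q₁} : Set Y) \ range (c i) = ∅ := by
            rw [diff_eq_empty]
            exact singleton_subset_iff.2 hqi
          rw [this, union_empty]
        rw [e] at h1
        refine ih (T \ range (c i)) (c i 0) f'' (diff_subset.trans hT) (fun j => ?_) h1 ?_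
        · rw [preimage_diff]
          exact (hTc j).diff ((hopen i).preimage (hcc j))
        · have hlt : (t.filter fun j => ((T \ range (c i)) ∩ range (c j)).Nonempty).card <
              (t.filter fun j => (T ∩ range (c j)).Nonempty).card := by
            refine Finset.card_lt_card ⟨fun j hj => ?_, fun hsub => ?_⟩
            · rw [Finset.mem_filter] at hj ⊢
              exact ⟨hj.1, hj.2.mono (inter_subset_inter_left _ diff_subset)⟩
            · have h3 : i ∈ t.filter fun j => (T ∩ range (c j)).Nonempty :=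
                Finset.mem_filter.2 ⟨hi, hne⟩
              have h4 := (Finset.mem_filter.1 (hsub h3)).2
              obtain ⟨z, hz1, hz2⟩ := h4
              exact hz1.2 hz2
          omega
      · push Not at hex
        obtain ⟨Q, hQ⟩ : ∃ Q : Set Y, Q = {q | ∃ f' : X → Y, TM (m + 1) f' (T ∪ {q})} := ⟨_, rfl⟩
        have hQr : ∀ q ∈ Q, ∀ i ∈ t, q ∈ range (c i) → range (c i) ⊆ Q := by
          intro q hq i hi hqi
          rw [hQ] at hq
          obtain ⟨f₁, hf₁⟩ := hq
          have hemp := hex q f₁ i hf₁ hi hqi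
          rintro _ ⟨p, rfl⟩
          obtain ⟨f'', h1, -⟩ := hstep T q f₁ hT hTc hf₁ i p
          rw [hQ]
          refine ⟨f'', ?_⟩
          have e : (T ∪ {q}) \ range (c i) = T := by
            rw [union_diff_distrib]
            have h2 : ({q} : Set Y) \ range (c i) = ∅ := by
              rw [diff_eq_empty]
              exact singleton_subset_iff.2 hqi
            rw [h2, union_empty, sdiff_eq_left]
            exact disjoint_iff_inter_eq_empty.2 hemp
          rwa [e] at h1
        have hQo : IsOpen Q := by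
          rw [isOpen_iff_mem_nhds]
          intro q hq
          obtain ⟨i, hi, hqi⟩ := hcov q
          exact mem_of_superset ((hopen i).mem_nhds hqi) (hQr q hq i hi hqi)
        have hQc : IsClosed Q := by
          rw [← isOpen_compl_iff, isOpen_iff_mem_nhds]
          intro q hq
          obtain ⟨i, hi, hqi⟩ := hcov q
          refine mem_of_superset ((hopen i).mem_nhds hqi) fun q₁ hq₁ hq₁Q => ?_
          exact hq (hQr q₁ hq₁Q i hi hq₁ hqi)
        have hQu : Q = univ := by
          refine IsClopen.eq_univ ⟨hQc, hQo⟩ ⟨q, ?_⟩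
          rw [hQ]
          exact ⟨f', hf'⟩
        have hTe : T = ∅ := by
          by_contra hne
          obtain ⟨z, hz⟩ := nonempty_iff_ne_empty.2 hne
          obtain ⟨i, hi, hzi⟩ := hcov z
          have hzQ : z ∈ Q := by rw [hQu]; exact mem_univ z
          rw [hQ] at hzQ
          obtain ⟨f₁, hf₁⟩ := hzQ
          have h3 := hex z f₁ i hf₁ hi hzi
          exact absurd ⟨z, hz, hzi⟩ (not_nonempty_iff_eq_empty.2 h3)
        refine ih T q f' hT hTc hf' ?_
        have : (t.filter fun i => (T ∩ range (c i)).Nonempty) = ∅ := by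
          rw [Finset.filter_eq_empty_iff]
          intro i _ hne
          rw [hTe, empty_inter] at hne
          exact not_nonempty_empty hne
        rw [this, Finset.card_empty]
        exact Nat.zero_le _
  obtain ⟨q₀⟩ : Nonempty Y := inferInstance
  have hf₀ : TM (m + 1) f (S ∪ {q₀}) :=
    ⟨hf.cont, hf.closed.union isClosed_singleton, fun y hy => hf.bij y fun h => hy (Or.inl h),
      fun x hx => hf.ld x fun h => hx (Or.inl h), hf.fib⟩
  obtain ⟨g, q, hg, x₀, hx₀, hx₀'⟩ := main _ S q₀ f Subset.rfl hc4 hf₀ le_rfl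
  have hb : Bijective g := by
    refine ⟨fun x x' hxx => ?_, fun y => ?_⟩
    · by_cases h : g x = q
      · rw [hx₀' x h, hx₀' x' (hxx.symm.trans h)]
      · obtain ⟨z, -, hz⟩ := hg.bij (g x) h
        rw [hz x rfl, hz x' hxx.symm]
    · by_cases h : y = q
      · exact ⟨x₀, h ▸ hx₀⟩
      · obtain ⟨z, hz, -⟩ := hg.bij y h
        exact ⟨z, hz⟩
  refine ⟨(Equiv.ofBijective g hb).toHomeomorphOfIsInducing
    (hg.cont.isClosedEmbedding hb.1).isInducing, x₀, fun x hx => ?_⟩
  exact hg.ld x fun h => hx (hx₀' x h)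

end Pool.Agent.Y522.TP
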